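import Mathlib

set_option autoImplicit false

namespace Pool.Agent.MP_75f689_ag

open MvPolynomial

lemma exists_derivation_ext (R S T M : Type*) [CommRing R] [CommRing S] [CommRing T]
    [Algebra R S] [Algebra R T] [Algebra S T] [IsScalarTower R S T] [Algebra.FormallyEtale S T]
    [AddCommGroup M] [Module R M] [Module S M] [Module T M] [IsScalarTower R S M]
    [IsScalarTower R T M] [IsScalarTower S T M] (d : Derivation R S M) :
    ∃ D : Derivation R T M, ∀ s, D (algebraMap S T s) = d s := by
  let ψ := LinearMap.liftBaseChange T d.liftKaehlerDifferential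
  refine ⟨(ψ ∘ₗ (KaehlerDifferential.tensorKaehlerEquivOfFormallyEtale R S T).symm.toLinearMap).compDer
    (KaehlerDifferential.D R T), fun s => ?_⟩
  change ψ ((KaehlerDifferential.tensorKaehlerEquivOfFormallyEtale R S T).symm
    (KaehlerDifferential.D R T (algebraMap S T s))) = d s
  rw [KaehlerDifferential.tensorKaehlerEquivOfFormallyEtale_symm_D_algebraMap]
  simp [ψ]

lemma exists_derivation_pullback (R W L : Type*) [CommRing R] [CommRing W] [CommRing L]
    [Algebra R W] [Algebra R L] [Algebra W L] [IsScalarTower R W L]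
    (hinj : Function.Injective (algebraMap W L)) (d : Derivation R W L)
    (hd : ∀ w, ∃ w', algebraMap W L w' = d w) :
    ∃ D : Derivation R W W, ∀ w, algebraMap W L (D w) = d w := by
  choose D hD using hd
  let Dl : W →ₗ[R] W :=
    { toFun := D
      map_add' := fun a b => hinj (by rw [map_add, hD, hD, hD, map_add])
      map_smul' := fun c a => hinj (by
        rw [hD, Derivation.map_smul, RingHom.id_apply, Algebra.smul_def c (D a), map_mul, hD,
          ← IsScalarTower.algebraMap_apply, Algebra.smul_def]) }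
  refine ⟨Derivation.mk' Dl fun a b => hinj ?_, fun w => hD w⟩
  change algebraMap W L (D (a * b)) = algebraMap W L (a • D b + b • D a)
  rw [hD, Derivation.leibniz, map_add, smul_eq_mul, smul_eq_mul, map_mul, map_mul, hD, hD,
    Algebra.smul_def, Algebra.smul_def]

open IsLocalRing in
lemma dvr_log {V : Type*} [CommRing V] [IsDomain V] [IsDiscreteValuationRing V] [Algebra ℂ V]
    (hres : ∀ a : V, ∃ c : ℂ, a - algebraMap ℂ V c ∈ maximalIdeal V)
    (D : Derivation ℂ V V) (hD : D ≠ 0) :
    ∃ (δ : Derivation ℂ V V) (e : V), e ≠ 0 ∧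
      ∀ a ∈ maximalIdeal V, ∃ c, IsUnit c ∧ δ a = a * e * c := by
  obtain ⟨π, hπ⟩ := IsDiscreteValuationRing.exists_irreducible V
  have hm := hπ.maximalIdeal_eq
  have hπm : π ∈ maximalIdeal V := by rw [hm]; exact Ideal.mem_span_singleton_self π
  have hle : Ideal.span (Set.range D) ≤ Ideal.span {D π} := by
    refine Submodule.le_of_le_smul_of_le_jacobson_bot (I := maximalIdeal V)
      (IsNoetherian.noetherian _) (by rw [jacobson_eq_maximalIdeal ⊥ bot_ne_top]) ?_
    rw [Ideal.span_le]
    rintro _ ⟨a, rfl⟩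
    obtain ⟨c, hc⟩ := hres a
    rw [hm, Ideal.mem_span_singleton'] at hc
    obtain ⟨b, hb⟩ := hc
    have ha : a = algebraMap ℂ V c + b * π := by rw [hb]; ring
    have : D a = b * D π + π * D b := by
      rw [ha, map_add, Derivation.map_algebraMap, zero_add, Derivation.leibniz]
      simp
    rw [this]
    exact Submodule.add_mem_sup (Ideal.mul_mem_left _ _ (Ideal.mem_span_singleton_self _))
      (Submodule.smul_mem_smul hπm (Ideal.subset_span ⟨b, rfl⟩))
  have hall : ∀ a, ∃ y, y * D π = D a := fun a =>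
    Ideal.mem_span_singleton'.mp (hle (Ideal.subset_span ⟨a, rfl⟩))
  refine ⟨π • D, D π, ?_, ?_⟩
  · intro h0
    apply hD
    ext a
    obtain ⟨y, hy⟩ := hall a
    rw [← hy, h0]
    simp
  · intro a ha
    by_cases ha0 : a = 0
    · exact ⟨1, isUnit_one, by simp [ha0]⟩
    obtain ⟨n, u, rfl⟩ := IsDiscreteValuationRing.eq_unit_mul_pow_irreducible ha0 hπ
    rcases n with _ | n
    · exact absurd (by simp) ((mem_maximalIdeal _).mp ha)
    obtain ⟨y, hy⟩ := hall u
    refine ⟨((n + 1 : ℕ) : V) + π * (y * ↑u⁻¹), ?_, ?_⟩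
    · have hn : IsUnit ((n + 1 : ℕ) : V) := by
        have : IsUnit ((n + 1 : ℕ) : ℂ) := isUnit_iff_ne_zero.mpr (Nat.cast_ne_zero.mpr (by omega))
        simpa using this.map (algebraMap ℂ V)
      by_contra hcon
      have h1 : ((n + 1 : ℕ) : V) + π * (y * ↑u⁻¹) ∈ maximalIdeal V := hcon
      have h2 : π * (y * ↑u⁻¹) ∈ maximalIdeal V := Ideal.mul_mem_right _ _ hπm
      have h3 := Ideal.sub_mem _ h1 h2
      rw [add_sub_cancel_right] at h3
      exact h3 hn
    · rw [Derivation.smul_apply, Derivation.leibniz, Derivation.leibniz_pow, ← hy]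
      simp only [smul_eq_mul, nsmul_eq_mul, Nat.add_sub_cancel]
      have hu : (u : V) * ↑u⁻¹ = 1 := by simp
      linear_combination (-(π ^ (n + 1) * π * y * D π)) * hu

lemma derivation_aeval {σ V : Type*} [Fintype σ] [CommRing V] [Algebra ℂ V]
    (δ : Derivation ℂ V V) (x : σ → V) (f : MvPolynomial σ ℂ) :
    δ (aeval x f) = ∑ i, aeval x (pderiv i f) * δ (x i) := by
  classical
  induction f using MvPolynomial.induction_on with
  | C a => simp
  | add p q hp hq => simp [hp, hq, add_mul, Finset.sum_add_distrib]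
  | mul_X p j hp =>
    simp only [map_mul, aeval_X, Derivation.leibniz, smul_eq_mul, hp, map_add, add_mul,
      Finset.sum_add_distrib, Finset.mul_sum]
    congr 1
    · rw [Finset.sum_eq_single j]
      · simp
      · intro i _ hi
        simp [pderiv_X_of_ne hi.symm]
      · simp
    · exact Finset.sum_congr rfl fun i _ => by ring

lemma mem_idealOfVars_iff {σ k : Type*} [CommRing k] (f : MvPolynomial σ k) :
    f ∈ idealOfVars σ k ↔ constantCoeff f = 0 := by
  rw [← pow_one (idealOfVars σ k), mem_pow_idealOfVars_iff']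
  simp [constantCoeff_eq, Finsupp.degree_eq_zero_iff]

lemma aeval_mem {σ V : Type*} [CommRing V] [Algebra ℂ V] (I : Ideal V) (x : σ → V)
    (hx : ∀ i, x i ∈ I) (f : MvPolynomial σ ℂ) (hf : constantCoeff f = 0) : aeval x f ∈ I := by
  have h : idealOfVars σ ℂ ≤ I.comap (aeval x : MvPolynomial σ ℂ →ₐ[ℂ] V) := by
    rw [Ideal.span_le]
    rintro _ ⟨i, rfl⟩
    simpa using hx i
  exact h ((mem_idealOfVars_iff f).mpr hf)

open IsLocalRing in
lemma key_dvr {σ V : Type*} [Fintype σ] [CommRing V] [IsDomain V] [IsDiscreteValuationRing V]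
    [Algebra ℂ V] (hres : ∀ a : V, ∃ c : ℂ, a - algebraMap ℂ V c ∈ maximalIdeal V)
    (D : Derivation ℂ V V) (hD : D ≠ 0) (x u : σ → V) (hx : ∀ i, x i ∈ maximalIdeal V)
    (hu : ∀ i, u i ∈ maximalIdeal V) (f : MvPolynomial σ ℂ) (hf : constantCoeff f = 0)
    (hrel : ∀ i, x i * aeval x (pderiv i f) = u i * aeval x f) : aeval x f = 0 := by
  obtain ⟨δ, e, he, hδ⟩ := dvr_log hres D hD
  obtain ⟨c, hc, hcf⟩ := hδ _ (aeval_mem _ x hx f hf)
  choose d hd hdx using fun i => hδ _ (hx i)
  rw [derivation_aeval] at hcf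
  have h1 : ∑ i, aeval x (pderiv i f) * δ (x i) = aeval x f * e * ∑ i, u i * d i := by
    rw [Finset.mul_sum]
    refine Finset.sum_congr rfl fun i _ => ?_
    rw [hdx i]
    linear_combination (e * d i) * hrel i
  by_contra hne
  rw [h1] at hcf
  have h2 := mul_left_cancel₀ (mul_ne_zero hne he) hcf
  have h3 : ∑ i, u i * d i ∈ maximalIdeal V :=
    Ideal.sum_mem _ fun i _ => Ideal.mul_mem_right _ _ (hu i)
  rw [h2] at h3
  exact h3 hc

lemma key_dedekind {σ W : Type*} [Fintype σ] [CommRing W] [IsDedekindDomain W] [Algebra ℂ W]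
    [Algebra.FiniteType ℂ W] (D : Derivation ℂ W W) (hD : D ≠ 0) (n : Ideal W) [n.IsMaximal]
    (x u : σ → W) (hx : ∀ i, x i ∈ n) (hu : ∀ i, u i ∈ n) (f : MvPolynomial σ ℂ)
    (hf : constantCoeff f = 0)
    (hrel : ∀ i, x i * aeval x (pderiv i f) = u i * aeval x f) : aeval x f = 0 := by
  by_cases hn : n = ⊥
  · have := aeval_mem n x hx f hf
    simpa [hn] using this
  let V := Localization.AtPrime n
  have : IsDiscreteValuationRing V :=
    IsLocalization.AtPrime.isDiscreteValuationRing_of_dedekind_domain W hn V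
  have hinj : Function.Injective (algebraMap W V) :=
    IsLocalization.injective V n.primeCompl_le_nonZeroDivisors
  have : Algebra.FormallyEtale W V := Algebra.FormallyEtale.of_isLocalization n.primeCompl
  obtain ⟨D', hD'⟩ := exists_derivation_ext ℂ W V V
    ((Algebra.linearMap W V).compDer D)
  have hD'' : ∀ w, D' (algebraMap W V w) = algebraMap W V (D w) := fun w => hD' w
  have hD'0 : D' ≠ 0 := by
    intro h
    apply hD
    ext w
    apply hinj
    rw [← hD'', h]
    simp
  have hmem : ∀ w, algebraMap W V w ∈ IsLocalRing.maximalIdeal V ↔ w ∈ n := fun w =>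
    IsLocalization.AtPrime.to_map_mem_maximal_iff V n w
  have hresW : ∀ w : W, ∃ c : ℂ, w - algebraMap ℂ W c ∈ n := by
    intro w
    let _ := Ideal.Quotient.field n
    have : Module.Finite ℂ (W ⧸ n) := finite_of_finite_type_of_isJacobsonRing ℂ (W ⧸ n)
    obtain ⟨c, hc⟩ := (IsAlgClosed.algebraMap_bijective_of_isIntegral (k := ℂ) (K := W ⧸ n)).2
      (Ideal.Quotient.mk n w)
    refine ⟨c, ?_⟩
    rw [← Ideal.Quotient.eq, ← hc]
    rfl
  have hres : ∀ a : V, ∃ c : ℂ, a - algebraMap ℂ V c ∈ IsLocalRing.maximalIdeal V := by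
    intro a
    obtain ⟨⟨w, s⟩, hws⟩ := IsLocalization.surj n.primeCompl a
    obtain ⟨c1, hc1⟩ := hresW w
    obtain ⟨c2, hc2⟩ := hresW s
    have hc20 : c2 ≠ 0 := by
      rintro rfl
      exact s.2 (by simpa using hc2)
    refine ⟨c1 / c2, ?_⟩
    have hs : algebraMap W V s ∉ IsLocalRing.maximalIdeal V := fun h => s.2 ((hmem _).mp h)
    have hprime : (IsLocalRing.maximalIdeal V).IsPrime := inferInstance
    refine (hprime.mem_or_mem (y := algebraMap W V s) ?_).resolve_right hs
    have e : (a - algebraMap ℂ V (c1 / c2)) * algebraMap W V s =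
        algebraMap W V ((w - algebraMap ℂ W c1) -
          algebraMap ℂ W (c1 / c2) * (s - algebraMap ℂ W c2)) := by
      simp only at hws
      have h5 : algebraMap ℂ V (c1 / c2) * algebraMap ℂ V c2 = algebraMap ℂ V c1 := by
        rw [← map_mul, div_mul_cancel₀ _ hc20]
      rw [sub_mul, hws, map_sub, map_sub, map_mul, map_sub]
      simp only [← IsScalarTower.algebraMap_apply]
      linear_combination -h5
    rw [e, hmem]
    exact n.sub_mem hc1 (n.mul_mem_left _ hc2)
  let θ : W →ₐ[ℂ] V := IsScalarTower.toAlgHom ℂ W V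
  have hθ : ∀ g : MvPolynomial σ ℂ, aeval (fun i => θ (x i)) g = θ (aeval x g) := fun g => by
    rw [← comp_aeval_apply]
  have := key_dvr hres D' hD'0 (fun i => θ (x i)) (fun i => θ (u i))
    (fun i => (hmem _).mpr (hx i)) (fun i => (hmem _).mpr (hu i)) f hf
    (fun i => by rw [hθ, hθ, ← map_mul, ← map_mul, hrel])
  rw [hθ] at this
  apply hinj
  simpa [θ] using this

attribute [local instance] FractionRing.liftAlgebra in
lemma key_curve {σ B : Type*} [Fintype σ] [CommRing B] [IsDomain B] [Algebra ℂ B]
    [Algebra (Polynomial ℂ) B] [IsScalarTower ℂ (Polynomial ℂ) B] [Module.Finite (Polynomial ℂ) B]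
    [FaithfulSMul (Polynomial ℂ) B] (n : Ideal B) [n.IsMaximal]
    (x u : σ → B) (hx : ∀ i, x i ∈ n) (hu : ∀ i, u i ∈ n) (f : MvPolynomial σ ℂ)
    (hf : constantCoeff f = 0)
    (hrel : ∀ i, x i * aeval x (pderiv i f) = u i * aeval x f) : aeval x f = 0 := by
  let A := Polynomial ℂ
  let K := FractionRing A
  let L := FractionRing B
  have : Module.Finite K L := Module.Finite.of_isLocalization A B (nonZeroDivisors A)
  have : CharZero K := algebraRat.charZero K
  have : Algebra.IsSeparable K L := inferInstance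
  let W := integralClosure A L
  have : IsDedekindDomain W := integralClosure.isDedekindDomain A K L
  have : Module.Finite A W := IsIntegralClosure.finite A K L W
  have : IsFractionRing W L := IsIntegralClosure.isFractionRing_of_finite_extension A K L W
  have : Algebra.FiniteType ℂ W := Algebra.FiniteType.trans (S := A) inferInstance inferInstance
  have : Algebra.FormallyEtale A K := Algebra.FormallyEtale.of_isLocalization (nonZeroDivisors A)
  have : Algebra.FormallyEtale K L := Algebra.FormallyEtale.of_isSeparable K L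
  have : Algebra.FormallyEtale A L := Algebra.FormallyEtale.comp A K L
  obtain ⟨D0, hD0⟩ := exists_derivation_ext ℂ A L L
    ((Algebra.linearMap A L).compDer Polynomial.derivative')
  have hD0' : ∀ p : A, D0 (algebraMap A L p) = algebraMap A L (Polynomial.derivative p) :=
    fun p => hD0 p
  obtain ⟨T, hT⟩ := (inferInstance : Module.Finite A W)
  obtain ⟨d, hd⟩ := IsLocalization.exist_integer_multiples_of_finite (nonZeroDivisors W)
    (fun t : T => D0 (algebraMap W L t))
  have hWinj : Function.Injective (algebraMap W L) := IsFractionRing.injective W L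
  obtain ⟨D, hD⟩ := exists_derivation_pullback ℂ W L hWinj ((d : W) • D0.compAlgebraMap W) (by
    intro w
    have hw : w ∈ Submodule.span A (T : Set W) := hT ▸ Submodule.mem_top
    change ∃ w', algebraMap W L w' = (d : W) • D0 (algebraMap W L w)
    induction hw using Submodule.span_induction with
    | mem t ht => exact hd ⟨t, ht⟩
    | zero => exact ⟨0, by simp⟩
    | add a b _ _ ha hb =>
      obtain ⟨a', ha'⟩ := ha
      obtain ⟨b', hb'⟩ := hb
      exact ⟨a' + b', by rw [map_add, ha', hb', map_add, map_add, smul_add]⟩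
    | smul p a _ ha =>
      obtain ⟨a', ha'⟩ := ha
      refine ⟨algebraMap A W p * a' + d * a * algebraMap A W (Polynomial.derivative p), ?_⟩
      rw [Algebra.smul_def p a, map_mul (algebraMap W L) (algebraMap A W p) a,
        ← IsScalarTower.algebraMap_apply, Derivation.leibniz, hD0', map_add, map_mul, map_mul,
        map_mul, ha', ← IsScalarTower.algebraMap_apply, ← IsScalarTower.algebraMap_apply]
      simp only [Algebra.smul_def, Algebra.algebraMap_self, RingHom.id_apply]
      ring)
  have hDne : D ≠ 0 := by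
    intro h
    have h1 := hD (algebraMap A W Polynomial.X)
    rw [h] at h1
    change algebraMap W L 0 = (d : W) • D0 (algebraMap W L (algebraMap A W Polynomial.X)) at h1
    rw [← IsScalarTower.algebraMap_apply, hD0', Polynomial.derivative_X, map_one, map_zero,
      Algebra.smul_def, mul_one] at h1
    exact nonZeroDivisors.coe_ne_zero d (hWinj (by rw [← h1, map_zero]))
  let θ : B →ₐ[A] W := (IsScalarTower.toAlgHom A B L).codRestrict W fun b =>
    (Algebra.IsIntegral.isIntegral (R := A) b).map (IsScalarTower.toAlgHom A B L)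
  have hθinj : Function.Injective θ := by
    intro a b h
    exact IsFractionRing.injective B L (congrArg Subtype.val h)
  let _ : Algebra B W := θ.toRingHom.toAlgebra
  have : IsScalarTower A B W := IsScalarTower.of_algebraMap_eq fun a => (θ.commutes a).symm
  have : Algebra.IsIntegral B W := Algebra.IsIntegral.tower_top A
  obtain ⟨N, hN, hNn⟩ := Ideal.exists_ideal_over_maximal_of_isIntegral (S := W) n (by
    intro b hb
    have : b = 0 := hθinj (by rw [map_zero]; exact hb)
    simp [this])
  let θ' : B →ₐ[ℂ] W := θ.restrictScalars ℂ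
  have hθ : ∀ g : MvPolynomial σ ℂ, aeval (fun i => θ' (x i)) g = θ' (aeval x g) := fun g => by
    rw [← comp_aeval_apply]
  have hmem : ∀ b ∈ n, θ' b ∈ N := by
    intro b hb
    rw [← hNn] at hb
    exact hb
  have := key_dedekind D hDne N (fun i => θ' (x i)) (fun i => θ' (u i))
    (fun i => hmem _ (hx i)) (fun i => hmem _ (hu i)) f hf
    (fun i => by rw [hθ, hθ, ← map_mul, ← map_mul, hrel])
  rw [hθ] at this
  apply hθinj
  rw [map_zero]
  exact this

end Pool.Agent.MP_75f689_ag
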