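import Pool.Agent.MP_75f689_ag.Filt

set_option autoImplicit false

namespace Pool.Agent.MP_75f689_ag

open MvPolynomial

section Frob

variable {k : Type*} [Field k] {σ : Type*}

lemma expand_eq_pow [Fintype k] (e : ℕ) (p : MvPolynomial σ k) :
    expand (Fintype.card k ^ e) p = p ^ (Fintype.card k ^ e) := by
  obtain ⟨l, hl⟩ := CharP.exists k
  obtain ⟨n, hlp, hn⟩ := FiniteField.card k l
  have : Fact l.Prime := ⟨hlp⟩
  induction p using MvPolynomial.induction_on with
  | C a => rw [expand_C, ← C_pow, FiniteField.pow_card_pow]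
  | add p r hp hr =>
    rw [map_add, hp, hr, hn, ← pow_mul, add_pow_char_pow]
  | mul_X p i hp => rw [map_mul, hp, expand_X, mul_pow]

open Classical in
/-- Extraction of the component of a polynomial along a residue class of exponents. -/
noncomputable def cart (q : ℕ) (α : σ → ℕ) : MvPolynomial σ k →ₗ[k] MvPolynomial σ k :=
  (basisMonomials σ k).constr k fun γ =>
    if ∀ i, γ i % q = α i then monomial (γ.mapRange (· / q) (by simp)) 1 else 0

open Classical in
lemma cart_monomial (q : ℕ) (α : σ → ℕ) (γ : σ →₀ ℕ) (c : k) :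
    cart q α (monomial γ c) =
      if ∀ i, γ i % q = α i then monomial (γ.mapRange (· / q) (by simp)) c else 0 := by
  have h : (monomial γ c : MvPolynomial σ k) = c • basisMonomials σ k γ := by
    simp [smul_monomial]
  rw [h, map_smul, cart, Module.Basis.constr_basis]
  split_ifs
  · simp [smul_monomial]
  · simp

lemma cart_mul_expand (q : ℕ) (hq : 0 < q) (α : σ → ℕ) (p r : MvPolynomial σ k) :
    cart q α (p * expand q r) = cart q α p * r := by
  induction r using MvPolynomial.induction_on' with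
  | add r s hr hs => rw [map_add, mul_add, map_add, hr, hs, mul_add]
  | monomial β d =>
    induction p using MvPolynomial.induction_on' with
    | add p s hp hs => rw [add_mul, map_add, hp, hs, map_add, add_mul]
    | monomial γ c =>
      rw [expand_monomial, monomial_mul, cart_monomial, cart_monomial]
      have hc : (∀ i, (γ + q • β) i % q = α i) ↔ ∀ i, γ i % q = α i := by
        simp [Nat.add_mul_mod_self_left]
      by_cases h : ∀ i, γ i % q = α i
      · rw [if_pos h, if_pos (hc.mpr h), monomial_mul]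
        congr 2
        ext i
        simp [Nat.add_mul_div_left _ _ hq]
      · rw [if_neg h, if_neg (fun h' => h (hc.mp h')), zero_mul]

lemma cart_mem (q : ℕ) (hq : 0 < q) (α : σ → ℕ) (K : Ideal (MvPolynomial σ k))
    (p : MvPolynomial σ k) (hp : p ∈ K.map (expand q : MvPolynomial σ k →ₐ[k] _)) :
    cart q α p ∈ K := by
  suffices h : ∀ r, cart q α (r * p) ∈ K by simpa using h 1
  unfold Ideal.map at hp
  induction hp using Submodule.span_induction with
  | mem x hx =>
    obtain ⟨y, hy, rfl⟩ := hx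
    intro r
    rw [cart_mul_expand q hq]
    exact K.mul_mem_left _ hy
  | zero => intro r; simp
  | add x y _ _ hx hy => intro r; rw [mul_add, map_add]; exact K.add_mem (hx r) (hy r)
  | smul a x _ hx => intro r; rw [smul_eq_mul, ← mul_assoc]; exact hx _

end Frob

lemma pow_le_sup_of_step {S : Type*} [CommRing S] (m J : Ideal S) (N : ℕ)
    (h : m ^ N ≤ J ⊔ m ^ (N + 1)) (M : ℕ) : m ^ N ≤ J ⊔ m ^ (N + M) := by
  induction M with
  | zero => simp
  | succ M ih =>
    refine le_trans ih (sup_le le_sup_left ?_)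
    rw [pow_add]
    refine le_trans (Ideal.mul_mono_left h) ?_
    rw [Ideal.sup_mul, ← pow_add]
    refine sup_le_sup Ideal.mul_le_left (le_of_eq ?_)
    congr 1
    ring

lemma pow_mem_pow_succ {S : Type*} [CommRing S] (J : Ideal S) (f : S) (a q : ℕ)
    (h : f ^ a ∈ J ^ (a + 1)) (hq : a * a ≤ q) : f ^ q ∈ J ^ (q + 1) := by
  rcases Nat.eq_zero_or_pos a with rfl | ha
  · have : J = ⊤ := by simpa [Ideal.eq_top_iff_one] using h
    simp [this, Ideal.top_pow]
  · have h1 := Nat.div_add_mod q a
    have h2 := Nat.mod_lt q ha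
    have h3 : a ≤ q / a := (Nat.le_div_iff_mul_le ha).mpr hq
    have h4 : (f ^ a) ^ (q / a) ∈ (J ^ (a + 1)) ^ (q / a) := Ideal.pow_mem_pow h _
    rw [← pow_mul, ← pow_mul] at h4
    have h5 : f ^ q = f ^ (a * (q / a)) * f ^ (q % a) := by rw [← pow_add, h1]
    rw [h5]
    refine Ideal.mul_mem_right _ _ (Ideal.pow_le_pow_right ?_ h4)
    nlinarith

/-- The inequality over a finite field. -/
theorem charP_ineq {k : Type} [Field k] [Finite k] (g : Fin 3 → MvPolynomial (Fin 3) k)
    (f : MvPolynomial (Fin 3) k) (N a : ℕ)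
    (h1 : idealOfVars (Fin 3) k ^ N ≤
      Ideal.span (Set.range g) ⊔ idealOfVars (Fin 3) k ^ (N + 1))
    (h2 : f ^ a ∈ Ideal.span (Set.range g) ^ (a + 1) ⊔ idealOfVars (Fin 3) k ^ (N * (a + 1)))
    {κ : Type} [Fintype κ] (v : κ → MvPolynomial (Fin 3) k)
    (hv : ∀ p : MvPolynomial (Fin 3) k, ∃ (c : κ → k) (r : MvPolynomial (Fin 3) k),
      p - ∑ l, c l • v l - f * r ∈ Ideal.span (Set.range g) ⊔ idealOfVars (Fin 3) k ^ N)
    (hμ : 0 < Module.finrank k (MvPolynomial (Fin 3) k ⧸
      (Ideal.span (Set.range g) ⊔ idealOfVars (Fin 3) k ^ N))) :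
    2 * Module.finrank k (MvPolynomial (Fin 3) k ⧸
      (Ideal.span (Set.range g) ⊔ idealOfVars (Fin 3) k ^ N)) < 3 * Fintype.card κ := by
  classical
  have := Fintype.ofFinite k
  set m := idealOfVars (Fin 3) k with hm
  set J := Ideal.span (Set.range g) with hJ
  set K := J ⊔ m ^ N with hK
  set μ := Module.finrank k (MvPolynomial (Fin 3) k ⧸ K) with hμdef
  have : Module.Finite k (MvPolynomial (Fin 3) k ⧸ K) := Module.finite_of_finrank_pos hμ
  let b := Module.finBasis k (MvPolynomial (Fin 3) k ⧸ K)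
  choose u hub using fun j => Ideal.Quotient.mk_surjective (I := K) (b j)
  have hu : ∀ p : MvPolynomial (Fin 3) k, ∃ c : Fin μ → k, p - ∑ j, c j • u j ∈ K := by
    intro p
    refine ⟨fun j => b.repr (Ideal.Quotient.mk K p) j, ?_⟩
    rw [← Ideal.Quotient.eq, ← Ideal.Quotient.mkₐ_eq_mk k, map_sum]
    simp only [map_smul, Ideal.Quotient.mkₐ_eq_mk, hub]
    exact (b.sum_repr _).symm
  -- the Frobenius power
  set q := Fintype.card k ^ (a * a + 1) with hqdef
  have hqa : a * a + 1 < q := Nat.lt_pow_self Fintype.one_lt_card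
  have hq0 : 0 < q := by omega
  let E : MvPolynomial (Fin 3) k →ₐ[k] MvPolynomial (Fin 3) k := expand q
  have hE : ∀ p, E p = p ^ q := fun p => expand_eq_pow _ p
  let Kq : Ideal (MvPolynomial (Fin 3) k) := K.map E
  let xa : (Fin 3 → Fin q) → MvPolynomial (Fin 3) k := fun α =>
    monomial (Finsupp.equivFunOnFinite.symm fun i => (α i : ℕ)) 1
  let π : MvPolynomial (Fin 3) k →ₗ[k] ((Fin 3 → Fin q) → MvPolynomial (Fin 3) k ⧸ K) :=
    LinearMap.pi fun α => (Ideal.Quotient.mkₐ k K).toLinearMap ∘ₗ cart q fun i => (α i : ℕ)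
  have hπK : ∀ p ∈ Kq, π p = 0 := by
    intro p hp
    ext α
    simpa [π, Ideal.Quotient.eq_zero_iff_mem] using cart_mem q hq0 _ K p hp
  have hπsurj : Function.Surjective π := by
    intro y
    choose r hr using fun α => Ideal.Quotient.mk_surjective (I := K) (y α)
    refine ⟨∑ β, xa β * E (r β), ?_⟩
    ext α
    simp only [π, map_sum, LinearMap.pi_apply, LinearMap.comp_apply, E,
      cart_mul_expand q hq0, AlgHom.toLinearMap_apply, Ideal.Quotient.mkₐ_eq_mk]
    rw [Finset.sum_eq_single α]
    · simp only [xa, cart_monomial]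
      rw [if_pos (fun i => by simpa using Nat.mod_eq_of_lt (α i).2)]
      have : (Finsupp.mapRange (· / q) (by simp)
          (Finsupp.equivFunOnFinite.symm fun i => (α i : ℕ))) = 0 := by
        ext i
        simp
      rw [this, ← hr α]
      simp
    · intro β _ hβ
      simp only [xa, cart_monomial]
      rw [if_neg]
      · simp
      · intro h
        apply hβ
        ext i
        have := h i
        simpa [Nat.mod_eq_of_lt (β i).2] using this
    · simp
  let w : ((Fin 3 → Fin q) × κ) ⊕ (Fin μ × tri (q - 1)) ⊕ (Fin μ × tri (q - 1)) →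
      MvPolynomial (Fin 3) k :=
    Sum.elim (fun z => xa z.1 * E (v z.2)) (Sum.elim
      (fun z => u z.1 * mon g (fun i => q - 1 - triv z.2.1 i))
      (fun z => f ^ q * (u z.1 * mon g (triv z.2.1))))
  let W0 : Submodule k (MvPolynomial (Fin 3) k) :=
    (Submodule.span k (Set.range (π ∘ w))).comap π
  have hW0K : ∀ p ∈ Kq, p ∈ W0 := by
    intro p hp
    simp [W0, hπK p hp]
  have hW0w : ∀ z, w z ∈ W0 := fun z => Submodule.subset_span ⟨z, rfl⟩
  let mk := Ideal.Quotient.mkₐ k Kq
  have hmk : Function.Surjective mk := Ideal.Quotient.mkₐ_surjective k Kq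
  have hmk0 : ∀ p ∈ Kq, mk p = 0 := fun p hp => Ideal.Quotient.eq_zero_iff_mem.mpr hp
  let W : Submodule k (MvPolynomial (Fin 3) k ⧸ Kq) := W0.map mk.toLinearMap
  have hJS : Ideal.span (Set.range (mk ∘ g)) = J.map mk := by
    rw [hJ, Ideal.map_span, Set.range_comp]
  have hmKq : m ^ (3 * (N * q)) ≤ Kq := by
    apply pow_three_mul_le
    intro i
    rw [pow_mul, ← hE]
    exact Ideal.mem_map_of_mem _ (Ideal.mem_sup_right
      (Ideal.pow_mem_pow (Ideal.subset_span (Set.mem_range_self i)) _))
  have hmN : (m ^ N).map mk ≤ J.map mk := by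
    refine le_trans (Ideal.map_mono (pow_le_sup_of_step m J N h1 (3 * (N * q)))) ?_
    rw [Ideal.map_sup]
    refine sup_le le_rfl (le_trans (le_of_eq ?_) bot_le)
    rw [Ideal.map_eq_bot_iff_le_ker]
    intro p hp
    exact hmk0 p (hmKq (Ideal.pow_le_pow_right (by omega) hp))
  have hKJ : K.map mk ≤ J.map mk := by
    rw [hK, Ideal.map_sup]
    exact sup_le le_rfl hmN
  have hmon : ∀ α, mon (mk ∘ g) α = mk (mon g α) := by
    intro α
    simp [mon]
  have hall : ∀ s, s ∈ W := by
    refine span_top (k := k) q hq0 (mk ∘ g) ?_ (mk ∘ u) ?_ (mk f ^ q) ?_ W ?_ ?_ ?_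
    · intro i
      rw [Function.comp_apply, ← map_pow, ← hE]
      exact hmk0 _ (Ideal.mem_map_of_mem _ (Ideal.mem_sup_left
        (Ideal.subset_span (Set.mem_range_self i))))
    · intro s
      obtain ⟨p, rfl⟩ := hmk s
      obtain ⟨c, hc⟩ := hu p
      refine ⟨c, ?_⟩
      rw [hJS]
      have := hKJ (Ideal.mem_map_of_mem mk hc)
      simpa [map_sub, map_sum] using this
    · rw [hJS]
      apply pow_mem_pow_succ _ _ a q _ (by omega)
      have := Ideal.mem_map_of_mem mk h2
      rw [Ideal.map_sup, map_pow, pow_mul, Ideal.map_pow, Ideal.map_pow] at this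
      exact (sup_le le_rfl (Ideal.pow_right_mono hmN _)) this
    · intro s
      obtain ⟨p, rfl⟩ := hmk s
      suffices h : ∃ r, p - f ^ q * r ∈ W0 by
        obtain ⟨r, hr⟩ := h
        exact ⟨mk r, p - f ^ q * r, hr, by simp⟩
      induction p using MvPolynomial.induction_on' with
      | add p s hp hs =>
        obtain ⟨r1, h1⟩ := hp
        obtain ⟨r2, h2⟩ := hs
        refine ⟨r1 + r2, ?_⟩
        have := W0.add_mem h1 h2
        convert this using 1
        ring
      | monomial γ d =>
        let α : Fin 3 → Fin q := fun i => ⟨γ i % q, Nat.mod_lt _ hq0⟩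
        obtain ⟨c, r, hc⟩ := hv (monomial (γ.mapRange (· / q) (by simp)) d)
        have hγ : (monomial γ d : MvPolynomial (Fin 3) k) =
            xa α * E (monomial (γ.mapRange (· / q) (by simp)) d) := by
          simp only [xa, E, expand_monomial, monomial_mul, one_mul]
          congr 2
          ext i
          simp [α, Nat.mod_add_div]
        refine ⟨xa α * E r, ?_⟩
        have h3 : xa α * E (monomial (γ.mapRange (· / q) (by simp)) d - ∑ l, c l • v l - f * r)
            ∈ W0 := hW0K _ (Ideal.mul_mem_left _ _ (Ideal.mem_map_of_mem _ hc))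
        have h4 : ∑ l, c l • (xa α * E (v l)) ∈ W0 :=
          W0.sum_mem fun l _ => W0.smul_mem _ (hW0w (Sum.inl (α, l)))
        have := W0.add_mem h3 h4
        convert this using 1
        rw [hγ, map_sub, map_sub, map_mul, map_sum, hE f]
        simp only [map_smul, mul_sub, Finset.mul_sum, mul_smul_comm]
        ring
    · intro j t ht
      exact ⟨_, hW0w (Sum.inr (Sum.inl (j, ⟨t, ht⟩))), by simp [w, hmon]⟩
    · intro j t ht
      exact ⟨_, hW0w (Sum.inr (Sum.inr (j, ⟨t, ht⟩))), by simp [w, hmon]⟩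
  have htop : Submodule.span k (Set.range (π ∘ w)) = ⊤ := by
    rw [eq_top_iff]
    intro y _
    obtain ⟨p, rfl⟩ := hπsurj y
    obtain ⟨p', hp', he⟩ := hall (mk p)
    have : p - p' ∈ Kq := by
      rw [← Ideal.Quotient.eq]
      exact he.symm
    have h5 := W0.add_mem (hW0K _ this) hp'
    simpa [W0] using h5
  have hle := finrank_le_of_span_eq_top htop
  rw [Module.finrank_pi_fintype] at hle
  simp only [Finset.sum_const, Finset.card_univ, Fintype.card_fun, Fintype.card_fin, smul_eq_mul,
    Fintype.card_sum, Fintype.card_prod, Fintype.card_coe, ← hμdef] at hle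
  have hc := card_tri (q - 1)
  obtain ⟨n, hn⟩ : ∃ n, q = n + 1 := ⟨q - 1, by omega⟩
  rw [hn] at hle hc
  simp only [Nat.add_sub_cancel] at hle hc
  set T := (tri n).card
  set τ := Fintype.card κ
  by_contra hcon
  push Not at hcon
  have e1 : 6 * T + (n + 1) = (n + 1) ^ 3 := by rw [hc]; ring
  have e2 : (n + 1) ^ 3 * (3 * τ) ≤ (n + 1) ^ 3 * (2 * μ) := Nat.mul_le_mul_left _ hcon
  have e3 : 0 < μ * (n + 1) := Nat.mul_pos hμ (by omega)
  have e4 : μ * (6 * T + (n + 1)) = μ * (n + 1) ^ 3 := by rw [e1]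
  nlinarith

end Pool.Agent.MP_75f689_ag
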