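import Mathlib

set_option autoImplicit false

namespace Pool.Agent.MP_75f689_ag

section Filtration

variable {S : Type*} [CommRing S]

/-- The monomial in three ring elements. -/
def mon (g : Fin 3 → S) (α : Fin 3 → ℕ) : S := ∏ i, g i ^ α i

lemma mon_mem (g : Fin 3 → S) (α : Fin 3 → ℕ) :
    mon g α ∈ Ideal.span (Set.range g) ^ (∑ i, α i) := by
  rw [← Finset.prod_pow_eq_pow_sum]
  exact Ideal.prod_mem_prod fun i _ => Ideal.pow_mem_pow (Ideal.subset_span (Set.mem_range_self i)) _

lemma mon_add_single (g : Fin 3 → S) (α : Fin 3 → ℕ) (i : Fin 3) :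
    mon g (α + Pi.single i 1) = mon g α * g i := by
  unfold mon
  simp only [Pi.add_apply, pow_add, Finset.prod_mul_distrib]
  congr 1
  rw [Finset.prod_eq_single i]
  · simp
  · intro j _ hj
    simp [Pi.single_eq_of_ne hj]
  · simp

lemma pow_le_span (g : Fin 3 → S) (n : ℕ) :
    Ideal.span (Set.range g) ^ n ≤
      Ideal.span {s | ∃ α : Fin 3 → ℕ, ∑ i, α i = n ∧ s = mon g α} := by
  induction n with
  | zero =>
    intro s _
    have h1 : (1 : S) ∈ Ideal.span {s | ∃ α : Fin 3 → ℕ, ∑ i, α i = 0 ∧ s = mon g α} :=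
      Ideal.subset_span ⟨0, by simp, by simp [mon]⟩
    simpa using Ideal.mul_mem_left _ s h1
  | succ n ih =>
    rw [pow_succ]
    refine le_trans (Ideal.mul_mono_left ih) ?_
    rw [Ideal.span_mul_span']
    apply Ideal.span_mono
    rintro _ ⟨_, ⟨α, hα, rfl⟩, _, ⟨i, rfl⟩, rfl⟩
    refine ⟨α + Pi.single i 1, ?_, (mon_add_single g α i).symm⟩
    simp [Finset.sum_add_distrib, hα]

lemma mon_mem_of_le (g : Fin 3 → S) (K : Ideal S) (n : ℕ) (hg : ∀ i, g i ^ n ∈ K)
    (α : Fin 3 → ℕ) (i : Fin 3) (hi : n ≤ α i) : mon g α ∈ K := by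
  unfold mon
  rw [← Finset.mul_prod_erase _ _ (Finset.mem_univ i)]
  apply Ideal.mul_mem_right
  obtain ⟨c, hc⟩ := Nat.exists_eq_add_of_le hi
  rw [hc, pow_add]
  exact Ideal.mul_mem_right _ _ (hg i)

lemma pow_three_mul_le (g : Fin 3 → S) (K : Ideal S) (n : ℕ) (hg : ∀ i, g i ^ n ∈ K) :
    Ideal.span (Set.range g) ^ (3 * n) ≤ K := by
  refine le_trans (pow_le_span g _) ?_
  rw [Ideal.span_le]
  rintro _ ⟨α, hα, rfl⟩
  have : ∃ i, n ≤ α i := by
    by_contra h
    push Not at h
    have h0 := h 0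
    have h1 := h 1
    have h2 := h 2
    simp [Fin.sum_univ_three] at hα
    omega
  obtain ⟨i, hi⟩ := this
  exact mon_mem_of_le g K n hg α i hi

variable {k : Type*} [Field k] [Algebra k S] {ι : Type*} [Fintype ι]

lemma filt_step (g : Fin 3 → S) (u : ι → S)
    (hu : ∀ s : S, ∃ c : ι → k, s - ∑ j, c j • u j ∈ Ideal.span (Set.range g)) (n : ℕ)
    (s : S) (hs : s ∈ Ideal.span (Set.range g) ^ n) :
    s ∈ Submodule.span k {s | ∃ (j : ι) (α : Fin 3 → ℕ), ∑ i, α i = n ∧ s = u j * mon g α} ⊔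
      (Ideal.span (Set.range g) ^ (n + 1)).restrictScalars k := by
  have hs' := pow_le_span g n hs
  set W := Submodule.span k {s | ∃ (j : ι) (α : Fin 3 → ℕ), ∑ i, α i = n ∧ s = u j * mon g α} ⊔
      (Ideal.span (Set.range g) ^ (n + 1)).restrictScalars k with hW
  suffices h : ∀ r : S, r * s ∈ W by simpa using h 1
  clear hs
  induction hs' using Submodule.span_induction with
  | mem x hx =>
    obtain ⟨α, hα, rfl⟩ := hx
    intro r
    obtain ⟨c, hc⟩ := hu r
    have e : r * mon g α = (∑ j, c j • (u j * mon g α)) + mon g α * (r - ∑ j, c j • u j) := by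
      simp only [mul_sub, Finset.mul_sum, mul_smul_comm, mul_comm (u _) (mon g α)]
      ring
    rw [e]
    refine Submodule.add_mem_sup (Submodule.sum_mem _ fun j _ => Submodule.smul_mem _ _
      (Submodule.subset_span ⟨j, α, hα, rfl⟩)) ?_
    rw [Submodule.restrictScalars_mem, pow_succ]
    exact Ideal.mul_mem_mul (hα ▸ mon_mem g α) hc
  | zero => intro r; simp
  | add x y _ _ hx hy => intro r; rw [mul_add]; exact W.add_mem (hx r) (hy r)
  | smul a x _ hx => intro r; rw [smul_eq_mul, ← mul_assoc]; exact hx _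

lemma filt_range (g : Fin 3 → S) (u : ι → S)
    (hu : ∀ s : S, ∃ c : ι → k, s - ∑ j, c j • u j ∈ Ideal.span (Set.range g)) (a b : ℕ)
    (hab : a ≤ b) (s : S) (hs : s ∈ Ideal.span (Set.range g) ^ a) :
    s ∈ Submodule.span k
        {s | ∃ (j : ι) (α : Fin 3 → ℕ), a ≤ ∑ i, α i ∧ ∑ i, α i < b ∧ s = u j * mon g α} ⊔
      (Ideal.span (Set.range g) ^ b).restrictScalars k := by
  induction b, hab using Nat.le_induction with
  | base => exact Submodule.mem_sup_right hs
  | succ b hab ih =>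
    obtain ⟨x, hx, y, hy, rfl⟩ := Submodule.mem_sup.mp ih
    obtain ⟨y1, hy1, y2, hy2, rfl⟩ := Submodule.mem_sup.mp (filt_step g u hu b y hy)
    rw [← add_assoc]
    refine Submodule.add_mem_sup (Submodule.add_mem _ ?_ ?_) hy2
    · refine Submodule.span_mono ?_ hx
      rintro _ ⟨j, α, h1, h2, rfl⟩
      exact ⟨j, α, h1, by omega, rfl⟩
    · refine Submodule.span_mono ?_ hy1
      rintro _ ⟨j, α, h1, rfl⟩
      exact ⟨j, α, by omega, by omega, rfl⟩

/-- Exponent vectors of total degree less than `n`. -/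
def tri (n : ℕ) : Finset (Σ _ : ℕ, Σ _ : ℕ, ℕ) :=
  (Finset.range n).sigma fun i => (Finset.range (n - i)).sigma fun j => Finset.range (n - i - j)

/-- The exponent vector attached to an index. -/
def triv (t : Σ _ : ℕ, Σ _ : ℕ, ℕ) : Fin 3 → ℕ := ![t.1, t.2.1, t.2.2]

lemma exists_tri (n : ℕ) (α : Fin 3 → ℕ) (h : ∑ i, α i < n) : ∃ t ∈ tri n, triv t = α := by
  refine ⟨⟨α 0, α 1, α 2⟩, ?_, ?_⟩
  · simp only [Fin.sum_univ_three] at h
    simp only [tri, Finset.mem_sigma, Finset.mem_range]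
    omega
  · ext i
    fin_cases i <;> rfl

lemma two_mul_sum (m : ℕ) : 2 * ∑ j ∈ Finset.range m, (m - j) = m * (m + 1) := by
  induction m with
  | zero => simp
  | succ m ih =>
    rw [Finset.sum_range_succ']
    simp only [Nat.add_sub_add_right, Nat.sub_zero, mul_add] at ih ⊢
    nlinarith

lemma card_tri (n : ℕ) : 6 * (tri n).card = n * (n + 1) * (n + 2) := by
  have h : (tri n).card = ∑ i ∈ Finset.range n, ∑ j ∈ Finset.range (n - i), (n - i - j) := by
    simp [tri, Finset.card_sigma]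
  rw [h]
  clear h
  induction n with
  | zero => simp
  | succ n ih =>
    rw [Finset.sum_range_succ']
    have h2 := two_mul_sum (n + 1)
    simp only [Nat.add_sub_add_right, Nat.sub_zero, mul_add] at ih h2 ⊢
    nlinarith

/-- The spanning statement behind the length inequality. -/
lemma span_top (q : ℕ) (hq : 1 ≤ q) (g : Fin 3 → S) (hg : ∀ i, g i ^ q = 0) (u : ι → S)
    (hu : ∀ s : S, ∃ c : ι → k, s - ∑ j, c j • u j ∈ Ideal.span (Set.range g))
    (F : S) (hF : F ∈ Ideal.span (Set.range g) ^ (q + 1)) (W : Submodule k S)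
    (hU : ∀ s : S, ∃ r : S, s - F * r ∈ W)
    (h1 : ∀ (j : ι), ∀ t ∈ tri (q - 1), u j * mon g (fun i => q - 1 - triv t i) ∈ W)
    (h2 : ∀ (j : ι), ∀ t ∈ tri (q - 1), F * (u j * mon g (triv t)) ∈ W) (s : S) : s ∈ W := by
  set J := Ideal.span (Set.range g) with hJ
  have hz : J ^ (3 * q) ≤ ⊥ := pow_three_mul_le g ⊥ q (by simpa using hg)
  have hA : ∀ s ∈ J ^ (2 * q), s ∈ W := by
    intro s hs
    obtain ⟨x, hx, y, hy, rfl⟩ := Submodule.mem_sup.mp
      (filt_range g u hu (2 * q) (3 * q) (by omega) s hs)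
    have hy0 : y = 0 := by simpa using hz hy
    rw [hy0, add_zero]
    refine (Submodule.span_le.mpr ?_) hx
    rintro _ ⟨j, α, ha, -, rfl⟩
    by_cases hbig : ∃ i, q ≤ α i
    · obtain ⟨i, hi⟩ := hbig
      have : mon g α ∈ (⊥ : Ideal S) := mon_mem_of_le g ⊥ q (by simpa using hg) α i hi
      have h0 : mon g α = 0 := by simpa using this
      simp [h0]
    · push Not at hbig
      have hs0 := hbig 0
      have hs1 := hbig 1
      have hs2 := hbig 2
      obtain ⟨t, ht, htv⟩ := exists_tri (q - 1) (fun i => q - 1 - α i) (by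
        simp only [Fin.sum_univ_three] at ha ⊢
        omega)
      have := h1 j t ht
      rw [htv] at this
      have e : (fun i => q - 1 - (q - 1 - α i)) = α := by
        ext i
        have := hbig i
        omega
      simpa [e] using this
  obtain ⟨r, hr⟩ := hU s
  suffices h : F * r ∈ W by simpa using W.add_mem hr h
  obtain ⟨x, hx, y, hy, rfl⟩ := Submodule.mem_sup.mp
    (filt_range g u hu 0 (q - 1) (by omega) r (by simp))
  rw [mul_add]
  refine W.add_mem ?_ (hA _ ?_)
  · clear hr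
    induction hx using Submodule.span_induction with
    | mem x hx =>
      obtain ⟨j, α, -, ha, rfl⟩ := hx
      obtain ⟨t, ht, rfl⟩ := exists_tri (q - 1) α ha
      exact h2 j t ht
    | zero => simp
    | add x y _ _ hx hy => rw [mul_add]; exact W.add_mem hx hy
    | smul a x _ hx => rw [mul_smul_comm]; exact W.smul_mem _ hx
  · have e : 2 * q = (q + 1) + (q - 1) := by omega
    rw [e, pow_add]
    exact Ideal.mul_mem_mul hF hy

end Filtration

end Pool.Agent.MP_75f689_ag
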