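import Pool.Agent.MP_75f689_ag.Arc

set_option autoImplicit false

namespace Pool.Agent.MP_75f689_ag

open MvPolynomial

lemma algHom_surjective {B : Type*} [CommRing B] [Algebra ℂ B] (ε : B →ₐ[ℂ] ℂ) :
    Function.Surjective ε := fun c => ⟨algebraMap ℂ B c, by simp⟩

lemma key_domain {σ B : Type*} [Fintype σ] [CommRing B] [IsDomain B] [Algebra ℂ B]
    [Algebra.FiniteType ℂ B] (ε : B →ₐ[ℂ] ℂ) (x u : σ → B) (hx : ∀ i, ε (x i) = 0)
    (hu : ∀ i, ε (u i) = 0) (f : MvPolynomial σ ℂ) (hf : constantCoeff f = 0)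
    (hrel : ∀ i, x i * aeval x (pderiv i f) = u i * aeval x f) : aeval x f = 0 := by
  by_contra hF
  set F := aeval x f with hFdef
  have hεF : ε F = 0 := aeval_mem (RingHom.ker ε) x hx f hf
  obtain ⟨s, g, hginj, hgfin⟩ := exists_finite_inj_algHom_of_fg ℂ B
  let _ : Algebra (MvPolynomial (Fin s) ℂ) B := g.toRingHom.toAlgebra
  have : Module.Finite (MvPolynomial (Fin s) ℂ) B := hgfin
  have : FaithfulSMul (MvPolynomial (Fin s) ℂ) B := (faithfulSMul_iff_algebraMap_injective (MvPolynomial (Fin s) ℂ) B).mpr hginj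
  have hne : (Ideal.span {F}).comap (algebraMap (MvPolynomial (Fin s) ℂ) B) ≠ ⊥ :=
    Ideal.comap_ne_bot_of_integral_mem hF (Ideal.mem_span_singleton_self F)
      (Algebra.IsIntegral.isIntegral F)
  obtain ⟨n0, hn0, hn0ne⟩ := Submodule.exists_mem_ne_zero_of_ne_bot hne
  have hn0' : g n0 ∈ Ideal.span {F} := hn0
  obtain ⟨z, hz⟩ : ∃ z : Fin s → ℂ, eval z n0 ≠ 0 := by
    by_contra h
    push Not at h
    exact hn0ne (MvPolynomial.funext fun z => by simp [h z])
  let c : Fin s → ℂ := fun i => ε (g (X i))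
  let w : Fin s → ℂ := fun i => z i - c i
  let l : (MvPolynomial (Fin s) ℂ) →ₐ[ℂ] Polynomial ℂ :=
    aeval fun i => Polynomial.C (c i) + Polynomial.C (w i) * Polynomial.X
  have hl0 : ∀ p : (MvPolynomial (Fin s) ℂ), ε (g p) = (l p).eval 0 := by
    intro p
    have : ε.comp g = (Polynomial.aeval (0 : ℂ)).comp l := by
      ext i
      simp [l, c]
    simpa [Polynomial.coe_aeval_eq_eval] using congrArg (fun φ => φ p) this
  have hl1 : ∀ p : (MvPolynomial (Fin s) ℂ), eval z p = (l p).eval 1 := by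
    intro p
    have : (aeval z : (MvPolynomial (Fin s) ℂ) →ₐ[ℂ] ℂ) = (Polynomial.aeval (1 : ℂ)).comp l := by
      ext i
      simp [l, w]
    simpa [Polynomial.coe_aeval_eq_eval] using congrArg (fun φ => φ p) this
  have hQ : (RingHom.ker ε).IsMaximal := RingHom.ker_isMaximal_of_surjective _ (algHom_surjective ε)
  have hp0 : (RingHom.ker l).IsPrime := RingHom.ker_isPrime _
  obtain ⟨P, hPle, hP, hPover⟩ := Ideal.exists_ideal_le_liesOver_of_le
    (p := RingHom.ker l) (q := (RingHom.ker ε).under (MvPolynomial (Fin s) ℂ)) (RingHom.ker ε) (by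
      intro p hp
      change ε (g p) = 0
      rw [hl0, (RingHom.mem_ker).mp hp]
      simp)
  have hPl : ∀ p : (MvPolynomial (Fin s) ℂ), g p ∈ P ↔ l p = 0 := by
    intro p
    have := hPover.over
    rw [← RingHom.mem_ker, this]
    rfl
  have hFP : F ∉ P := by
    intro h
    have h1 : g n0 ∈ P := (Ideal.span_singleton_le_iff_mem P).mpr h hn0'
    apply hz
    rw [hl1, (hPl _).mp h1]
    simp
  obtain ⟨i0, hi0⟩ : ∃ i, w i ≠ 0 := by
    by_contra h
    push Not at h
    apply hz
    have h1 : ε (g n0) = 0 := (Ideal.span_singleton_le_iff_mem (RingHom.ker ε)).mpr hεF hn0'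
    have h2 : (aeval z : (MvPolynomial (Fin s) ℂ) →ₐ[ℂ] ℂ) = ε.comp g := by
      ext i
      simpa [w, c, sub_eq_zero] using h i
    have h3 := congrArg (fun φ => φ n0) h2
    simpa [h1] using h3
  let D := B ⧸ P
  let mk : B →ₐ[ℂ] D := Ideal.Quotient.mkₐ ℂ P
  let y : (MvPolynomial (Fin s) ℂ) := C (w i0)⁻¹ * (X i0 - C (c i0))
  have hly : l y = Polynomial.X := by
    simp only [l, y, map_mul, map_sub, aeval_X, aeval_C, Polynomial.algebraMap_eq,
      add_sub_cancel_left]
    rw [← mul_assoc, ← Polynomial.C_mul, inv_mul_cancel₀ hi0]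
    simp
  let j : Polynomial ℂ →ₐ[ℂ] D := Polynomial.aeval (mk (g y))
  have hj : j.comp l = mk.comp g := by
    ext i
    have h1 : g (X i - C (c i) - C (w i) * y) ∈ P := by
      rw [hPl, map_sub, map_sub, map_mul, hly]
      simp [l]
    have h2 : mk (g (X i - C (c i) - C (w i) * y)) = 0 := Ideal.Quotient.eq_zero_iff_mem.mpr h1
    simp only [map_sub, map_mul, algHom_C, AlgHom.commutes] at h2
    simp only [AlgHom.comp_apply, l, j, aeval_X, map_add, map_mul, Polynomial.aeval_C,
      Polynomial.aeval_X]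
    linear_combination -h2
  have hjl : ∀ p, j (l p) = mk (g p) := fun p => congrArg (fun φ => φ p) hj
  have hlsurj : Function.Surjective l := by
    intro p
    refine ⟨Polynomial.aeval y p, ?_⟩
    rw [← Polynomial.aeval_algHom_apply, hly]
    simp
  have hjinj : Function.Injective j := by
    rw [injective_iff_map_eq_zero]
    intro p hp
    obtain ⟨p', rfl⟩ := hlsurj p
    rw [hjl] at hp
    exact (hPl _).mp (Ideal.Quotient.eq_zero_iff_mem.mp hp)
  have hjfin : j.Finite := by
    apply AlgHom.Finite.of_comp_finite (f := l)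
    rw [hj]
    exact AlgHom.Finite.comp (AlgHom.Finite.of_surjective _ (Ideal.Quotient.mkₐ_surjective ℂ P))
      hgfin
  let _ : Algebra (Polynomial ℂ) D := j.toRingHom.toAlgebra
  have : IsScalarTower ℂ (Polynomial ℂ) D :=
    IsScalarTower.of_algebraMap_eq fun a => (j.commutes a).symm
  have : Module.Finite (Polynomial ℂ) D := hjfin
  have : FaithfulSMul (Polynomial ℂ) D :=
    (faithfulSMul_iff_algebraMap_injective _ D).mpr hjinj
  let ε' : D →ₐ[ℂ] ℂ := Ideal.Quotient.liftₐ P ε fun a ha => hPle ha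
  have hε' : ∀ b, ε' (mk b) = ε b := fun b => rfl
  have : (RingHom.ker ε').IsMaximal :=
    RingHom.ker_isMaximal_of_surjective _ (algHom_surjective ε')
  have hθ : ∀ g : MvPolynomial σ ℂ, aeval (fun i => mk (x i)) g = mk (aeval x g) := fun g => by
    rw [← comp_aeval_apply]
  have := key_curve (RingHom.ker ε') (fun i => mk (x i)) (fun i => mk (u i))
    (fun i => by rw [RingHom.mem_ker]; exact hx i) (fun i => by rw [RingHom.mem_ker]; exact hu i)
    f hf (fun i => by rw [hθ, hθ, ← map_mul, ← map_mul, hrel])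
  rw [hθ] at this
  exact hFP (Ideal.Quotient.eq_zero_iff_mem.mp this)

/-- Integral dependence of `f` on the ideal generated by the products `x_i ∂_i f`, near the
origin. -/
lemma exists_dependence {σ : Type} [Fintype σ] (f : MvPolynomial σ ℂ) (hf : constantCoeff f = 0) :
    ∃ (r : ℕ) (h : MvPolynomial σ ℂ), constantCoeff h = 1 ∧
      h * f ^ (r + 1) ∈ Ideal.span (Set.range fun i => X i * pderiv i f) *
        (Ideal.span (Set.range fun i => X i * pderiv i f) ⊔ Ideal.span {f}) ^ r := by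
  by_cases hf0 : f = 0
  · exact ⟨0, 1, by simp, by simp [hf0]⟩
  let K := FractionRing (MvPolynomial σ ℂ)
  let ι : (MvPolynomial σ ℂ) →ₐ[ℂ] K := IsScalarTower.toAlgHom ℂ (MvPolynomial σ ℂ) K
  have hι : Function.Injective ι := IsFractionRing.injective (MvPolynomial σ ℂ) K
  have hιf : ι f ≠ 0 := fun h => hf0 (hι (by rw [h, map_zero]))
  let ev : MvPolynomial (σ ⊕ σ) ℂ →ₐ[ℂ] K :=
    aeval (Sum.elim (fun i => ι (X i)) (fun i => ι (X i * pderiv i f) / ι f))
  let z : MvPolynomial (σ ⊕ σ) ℂ →ₐ[ℂ] (MvPolynomial σ ℂ) := aeval (Sum.elim X fun _ => 0)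
  set a := Ideal.span (Set.range fun i => (X i * pderiv i f : (MvPolynomial σ ℂ))) with ha
  set I := a ⊔ Ideal.span {f} with hI
  have hfI : f ∈ I := Ideal.mem_sup_right (Ideal.mem_span_singleton_self f)
  let T : ℕ → MvPolynomial (σ ⊕ σ) ℂ → Prop := fun r Φ =>
    ∃ p : (MvPolynomial σ ℂ), ι p = ι f ^ (r + 1) * ev Φ ∧ p - z Φ * f ^ (r + 1) ∈ a * I ^ r
  have hTs : ∀ r Φ, T r Φ → T (r + 1) Φ := by
    rintro r Φ ⟨p, h1, h2⟩
    refine ⟨p * f, by rw [map_mul, h1]; ring, ?_⟩
    have : p * f - z Φ * f ^ (r + 1 + 1) = (p - z Φ * f ^ (r + 1)) * f := by ring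
    rw [this, pow_succ I, ← mul_assoc]
    exact Ideal.mul_mem_mul h2 hfI
  have hTm : ∀ r r' Φ, r ≤ r' → T r Φ → T r' Φ := by
    intro r r' Φ h hT
    induction r', h using Nat.le_induction with
    | base => exact hT
    | succ r' _ ih => exact hTs _ _ ih
  have hT : ∀ Φ, ∃ r, T r Φ := by
    intro Φ
    induction Φ using MvPolynomial.induction_on with
    | C c => exact ⟨0, C c * f, by simp [ev, mul_comm], by simp [z]⟩
    | add p q hp hq =>
      obtain ⟨r1, h1⟩ := hp
      obtain ⟨r2, h2⟩ := hq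
      obtain ⟨p1, e1, m1⟩ := hTm _ _ _ (le_max_left r1 r2) h1
      obtain ⟨p2, e2, m2⟩ := hTm _ _ _ (le_max_right r1 r2) h2
      refine ⟨max r1 r2, p1 + p2, by rw [map_add, map_add, e1, e2]; ring, ?_⟩
      have := Ideal.add_mem _ m1 m2
      convert this using 1
      rw [map_add]
      ring
    | mul_X Φ i hΦ =>
      obtain ⟨r, p, e1, m1⟩ := hΦ
      rcases i with i | i
      · refine ⟨r, p * X i, by simp [ev, e1, mul_assoc], ?_⟩
        have := Ideal.mul_mem_right (X i) _ m1
        convert this using 1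
        simp only [z, map_mul, aeval_X, Sum.elim_inl]
        ring
      · refine ⟨r + 1, p * (X i * pderiv i f), ?_, ?_⟩
        · rw [map_mul ι p, e1, map_mul ev]
          simp only [ev, aeval_X, Sum.elim_inr]
          have hd := div_mul_cancel₀ (ι (X i * pderiv i f)) hιf
          linear_combination (-(ι f ^ (r + 1) * ev Φ)) * hd
        · have hp : p ∈ I ^ (r + 1) := by
            have h1 : z Φ * f ^ (r + 1) ∈ I ^ (r + 1) :=
              Ideal.mul_mem_left _ _ (Ideal.pow_mem_pow hfI _)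
            have h2 : a * I ^ r ≤ I ^ (r + 1) := by
              rw [pow_succ']
              exact Ideal.mul_mono_left le_sup_left
            simpa using Ideal.add_mem _ (h2 m1) h1
          simp only [z, map_mul, aeval_X, Sum.elim_inr, mul_zero, zero_mul, sub_zero]
          rw [mul_comm p]
          exact Ideal.mul_mem_mul (Ideal.subset_span ⟨i, rfl⟩) hp
  have hzc : ∀ Φ, constantCoeff (z Φ) = constantCoeff Φ := by
    intro Φ
    induction Φ using MvPolynomial.induction_on with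
    | C c => simp [z]
    | add p q hp hq => simp [hp, hq]
    | mul_X Φ i hΦ => rcases i with i | i <;> simp [z]
  suffices hΦ : ∃ Φ, ev Φ = 0 ∧ constantCoeff Φ ≠ 0 by
    obtain ⟨Φ, h0, h1⟩ := hΦ
    obtain ⟨r, p, e1, m1⟩ := hT Φ
    have hp : p = 0 := hι (by rw [e1, h0]; simp)
    refine ⟨r, C (constantCoeff Φ)⁻¹ * z Φ, by simp [hzc, h1], ?_⟩
    rw [hp, zero_sub, Ideal.neg_mem_iff] at m1
    rw [mul_assoc]
    exact Ideal.mul_mem_left _ _ m1
  by_contra hcon
  push Not at hcon
  let Q := RingHom.ker ev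
  have : Q.IsPrime := RingHom.ker_isPrime _
  let B := MvPolynomial (σ ⊕ σ) ℂ ⧸ Q
  let mk : MvPolynomial (σ ⊕ σ) ℂ →ₐ[ℂ] B := Ideal.Quotient.mkₐ ℂ Q
  let ε : B →ₐ[ℂ] ℂ := Ideal.Quotient.liftₐ Q (aeval fun _ => (0 : ℂ)) fun Φ hΦ => by
    simpa using hcon Φ hΦ
  have hε : ∀ i, ε (mk (X i)) = 0 := fun i => by
    change (aeval fun _ => (0 : ℂ)) (X i : MvPolynomial (σ ⊕ σ) ℂ) = 0
    simp
  have hθ : ∀ g : (MvPolynomial σ ℂ), aeval (fun i => mk (X (Sum.inl i))) g = mk (rename Sum.inl g) := fun g => by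
    rw [← comp_aeval_apply, rename_eq_aeval]
    rfl
  have hev : ∀ g : (MvPolynomial σ ℂ), ev (rename Sum.inl g) = ι g := fun g => by
    have : ev.comp (rename Sum.inl) = ι := by
      ext i
      simp [ev]
    exact congrArg (fun φ => φ g) this
  have := key_domain ε (fun i => mk (X (Sum.inl i))) (fun i => mk (X (Sum.inr i)))
    (fun i => hε _) (fun i => hε _) f hf (fun i => by
      rw [hθ, hθ, ← map_mul, ← map_mul]
      refine Ideal.Quotient.eq.mpr ?_
      rw [RingHom.mem_ker, map_sub, map_mul, map_mul, hev, hev]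
      simp only [ev, aeval_X, Sum.elim_inl, Sum.elim_inr]
      have hd := div_mul_cancel₀ (ι (X i * pderiv i f)) hιf
      rw [hd, map_mul, sub_self])
  rw [hθ] at this
  have h2 : ev (rename Sum.inl f) = 0 := Ideal.Quotient.eq_zero_iff_mem.mp this
  rw [hev] at h2
  exact hιf h2

end Pool.Agent.MP_75f689_ag
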