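import Mathlib

set_option autoImplicit false

namespace Pool.Agent.MP_75f689_ag

open MvPolynomial

variable {k : Type} [Field k]

/-- The inclusion of polynomials into power series. -/
noncomputable abbrev toS : MvPolynomial (Fin 3) k →+* MvPowerSeries (Fin 3) k :=
  coeToMvPowerSeries.ringHom

lemma exists_X_pow_mem (K : Ideal (MvPowerSeries (Fin 3) k))
    (hfin : Module.Finite k (MvPowerSeries (Fin 3) k ⧸ K)) :
    ∃ n, ∀ i, (MvPowerSeries.X i : MvPowerSeries (Fin 3) k) ^ n ∈ K := by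
  have : IsArtinianRing (MvPowerSeries (Fin 3) k ⧸ K) := IsArtinianRing.of_finite k _
  obtain ⟨n, hn⟩ := IsArtinianRing.isNilpotent_jacobson_bot (R := MvPowerSeries (Fin 3) k ⧸ K)
  refine ⟨n, fun i => ?_⟩
  rw [← Ideal.Quotient.eq_zero_iff_mem, map_pow]
  have h1 : Ideal.Quotient.mk K (MvPowerSeries.X i) ∈
      Ideal.jacobson (⊥ : Ideal (MvPowerSeries (Fin 3) k ⧸ K)) := by
    rw [Ideal.mem_jacobson_bot]
    intro y
    obtain ⟨y, rfl⟩ := Ideal.Quotient.mk_surjective y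
    have : IsUnit (MvPowerSeries.X i * y + 1 : MvPowerSeries (Fin 3) k) := by
      rw [MvPowerSeries.isUnit_iff_constantCoeff]
      simp
    simpa using this.map (Ideal.Quotient.mk K)
  have h2 := Ideal.pow_mem_pow h1 n
  rw [hn] at h2
  simpa using h2

lemma mem_of_coeff_eq_zero (K : Ideal (MvPowerSeries (Fin 3) k)) (n : ℕ)
    (hK : ∀ i, (MvPowerSeries.X i : MvPowerSeries (Fin 3) k) ^ n ∈ K)
    (φ : MvPowerSeries (Fin 3) k)
    (hφ : ∀ d : Fin 3 →₀ ℕ, d.degree < 3 * n → MvPowerSeries.coeff d φ = 0) : φ ∈ K := by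
  classical
  let φ0 : MvPowerSeries (Fin 3) k := fun d => if n ≤ d 0 then MvPowerSeries.coeff d φ else 0
  let φ1 : MvPowerSeries (Fin 3) k := fun d =>
    if d 0 < n ∧ n ≤ d 1 then MvPowerSeries.coeff d φ else 0
  have c0 : ∀ d, MvPowerSeries.coeff d φ0 = if n ≤ d 0 then MvPowerSeries.coeff d φ else 0 :=
    fun d => rfl
  have c1 : ∀ d, MvPowerSeries.coeff d φ1 =
      if d 0 < n ∧ n ≤ d 1 then MvPowerSeries.coeff d φ else 0 := fun d => rfl
  have h0 : φ0 ∈ K := by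
    refine Ideal.mem_of_dvd K ?_ (hK 0)
    rw [MvPowerSeries.X_pow_dvd_iff]
    intro d hd
    rw [c0, if_neg (by omega)]
  have h1 : φ1 ∈ K := by
    refine Ideal.mem_of_dvd K ?_ (hK 1)
    rw [MvPowerSeries.X_pow_dvd_iff]
    intro d hd
    rw [c1, if_neg (by omega)]
  have h2 : φ - φ0 - φ1 ∈ K := by
    refine Ideal.mem_of_dvd K ?_ (hK 2)
    rw [MvPowerSeries.X_pow_dvd_iff]
    intro d hd
    rw [map_sub, map_sub, c0, c1]
    by_cases e0 : n ≤ d 0
    · rw [if_pos e0, if_neg (by omega)]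
      simp
    · by_cases e1 : n ≤ d 1
      · rw [if_neg e0, if_pos (by omega)]
        simp
      · rw [if_neg e0, if_neg (by omega), hφ d]
        · simp
        · rw [Finsupp.degree_eq_sum, Fin.sum_univ_three]
          omega
  have := K.add_mem (K.add_mem h2 h1) h0
  simpa using this

lemma mem_sup_of_coe_mem (K : Ideal (MvPolynomial (Fin 3) k)) (p : MvPolynomial (Fin 3) k)
    (hp : toS p ∈ K.map toS) (L : ℕ) : p ∈ K ⊔ idealOfVars (Fin 3) k ^ L := by
  rw [← Ideal.mem_quotient_iff_mem_sup]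
  let t := MvPowerSeries.truncTotalAlgHom (Fin 3) k L
  have ht : ∀ q : MvPolynomial (Fin 3) k, t (toS q) = Ideal.Quotient.mk _ q := fun q =>
    t.commutes q
  have h1 : (K.map toS).map (t : MvPowerSeries (Fin 3) k →+* _) =
      K.map (Ideal.Quotient.mk (idealOfVars (Fin 3) k ^ L)) := by
    rw [Ideal.map_map]
    congr 1
    exact RingHom.ext ht
  rw [← h1, ← ht]
  exact Ideal.mem_map_of_mem _ hp

lemma coe_mem_of_mem_pow (K : Ideal (MvPowerSeries (Fin 3) k)) (n : ℕ)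
    (hK : ∀ i, (MvPowerSeries.X i : MvPowerSeries (Fin 3) k) ^ n ∈ K)
    (p : MvPolynomial (Fin 3) k) (hp : p ∈ idealOfVars (Fin 3) k ^ (3 * n)) : toS p ∈ K := by
  refine mem_of_coeff_eq_zero K n hK _ fun d hd => ?_
  rw [mem_pow_idealOfVars_iff'] at hp
  simpa using hp d hd

lemma finrank_eq (K : Ideal (MvPolynomial (Fin 3) k)) (n : ℕ)
    (hK : ∀ i, (MvPowerSeries.X i : MvPowerSeries (Fin 3) k) ^ n ∈ K.map toS) :
    Module.finrank k (MvPowerSeries (Fin 3) k ⧸ K.map toS) =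
      Module.finrank k (MvPolynomial (Fin 3) k ⧸ (K ⊔ idealOfVars (Fin 3) k ^ (3 * n))) := by
  let ψ : MvPolynomial (Fin 3) k →ₐ[k] MvPowerSeries (Fin 3) k ⧸ K.map toS :=
    (Ideal.Quotient.mkₐ k _).comp (coeToMvPowerSeries.algHom k)
  have hψ : ∀ p, ψ p = Ideal.Quotient.mk _ (toS p) := fun p => by
    simp [ψ]
  have hsurj : Function.Surjective ψ := by
    intro x
    obtain ⟨φ, rfl⟩ := Ideal.Quotient.mk_surjective x
    refine ⟨MvPowerSeries.truncTotal (3 * n) φ, ?_⟩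
    rw [hψ, Ideal.Quotient.eq]
    refine mem_of_coeff_eq_zero _ n hK _ fun d hd => ?_
    simp [MvPowerSeries.coeff_truncTotal _ hd]
  have hker : RingHom.ker ψ = K ⊔ idealOfVars (Fin 3) k ^ (3 * n) := by
    ext p
    rw [RingHom.mem_ker, hψ, Ideal.Quotient.eq_zero_iff_mem]
    refine ⟨fun h => mem_sup_of_coe_mem K p h _, fun h => ?_⟩
    have : K ⊔ idealOfVars (Fin 3) k ^ (3 * n) ≤ (K.map toS).comap toS :=
      sup_le Ideal.le_comap_map fun q hq => coe_mem_of_mem_pow _ n hK q hq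
    exact this h
  exact (((Ideal.quotientEquivAlgOfEq k hker).symm.trans
    (Ideal.quotientKerAlgEquivOfSurjective hsurj)).toLinearEquiv.finrank_eq).symm

end Pool.Agent.MP_75f689_ag
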