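import Pool.Agent.MP_75f689_ag.Transfer
import Pool.Agent.MP_75f689_ag.Series
import Pool.Agent.MP_75f689_ag.Integral

set_option autoImplicit false

namespace Pool.Agent.MP_75f689_ag

open MvPolynomial

lemma pow_mem_of_dependence {Q : Type*} [CommRing Q] (a J m : Ideal Q) (f : Q) (r N : ℕ)
    (hf : f ^ (r + 1) ∈ a * (a ⊔ Ideal.span {f}) ^ r) (ha : a ≤ m * J) (hm : m ^ N ≤ J) :
    f ^ (r + N * (r + 1)) ∈ J ^ (r + N * (r + 1) + 1) := by
  set I := a ⊔ Ideal.span {f} with hI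
  have hfI : f ∈ I := Ideal.mem_sup_right (Ideal.mem_span_singleton_self f)
  have h0 : ∀ n, I ^ (n + 1) ≤ a * I ^ n ⊔ Ideal.span {f ^ (n + 1)} := by
    intro n
    induction n with
    | zero => simp [hI]
    | succ n ih =>
      rw [pow_succ I (n + 1)]
      refine le_trans (Ideal.mul_mono_left ih) ?_
      rw [Ideal.sup_mul, mul_assoc, ← pow_succ]
      refine sup_le le_sup_left ?_
      conv_lhs => rw [hI]
      rw [Ideal.mul_sup, Ideal.span_singleton_mul_span_singleton, ← pow_succ]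
      refine sup_le (le_trans ?_ le_sup_left) le_sup_right
      rw [mul_comm]
      exact Ideal.mul_mono_right
        ((Ideal.span_singleton_le_iff_mem _).mpr (Ideal.pow_mem_pow hfI _))
  have h1 : I ^ (r + 1) ≤ a * I ^ r :=
    le_trans (h0 r) (sup_le le_rfl ((Ideal.span_singleton_le_iff_mem _).mpr hf))
  have h2 : ∀ t, I ^ (r + t) ≤ a ^ t * I ^ r := by
    intro t
    induction t with
    | zero => simp
    | succ t ih =>
      rw [← add_assoc, pow_succ I (r + t)]
      refine le_trans (Ideal.mul_mono_left ih) ?_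
      rw [mul_assoc, ← pow_succ I r, pow_succ a t, mul_assoc]
      exact Ideal.mul_mono_right h1
  have h3 : a ^ (N * (r + 1)) ≤ J ^ (r + N * (r + 1) + 1) := by
    refine le_trans (Ideal.pow_right_mono ha _) ?_
    rw [mul_pow, pow_mul m, show r + N * (r + 1) + 1 = (r + 1) + N * (r + 1) by ring,
      pow_add J (r + 1)]
    exact Ideal.mul_mono_left (Ideal.pow_right_mono hm _)
  have h4 : I ^ (r + N * (r + 1)) ≤ a ^ (N * (r + 1)) :=
    le_trans (h2 _) (le_trans Ideal.mul_le_inf inf_le_left)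
  exact h3 (h4 (Ideal.pow_mem_pow hfI _))

lemma exists_pow_mem (f : MvPolynomial (Fin 3) ℂ) (hf : constantCoeff f = 0) (N : ℕ)
    (h1 : idealOfVars (Fin 3) ℂ ^ N ≤
      Ideal.span (Set.range fun i => pderiv i f) ⊔ idealOfVars (Fin 3) ℂ ^ (N + 1)) :
    ∃ a, f ^ a ∈ Ideal.span (Set.range fun i => pderiv i f) ^ (a + 1) ⊔
      idealOfVars (Fin 3) ℂ ^ (N * (a + 1)) := by
  obtain ⟨r, h, hh, hmem⟩ := exists_dependence f hf
  refine ⟨r + N * (r + 1), ?_⟩
  set L := N * (r + N * (r + 1) + 1) with hL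
  set m := idealOfVars (Fin 3) ℂ with hm
  set J := Ideal.span (Set.range fun i => pderiv i f) with hJ
  set a := Ideal.span (Set.range fun i => X i * pderiv i f) with ha
  let mk := Ideal.Quotient.mk (m ^ L)
  rw [← Ideal.mem_quotient_iff_mem_sup, map_pow, Ideal.map_pow]
  have hu : IsUnit (mk h) := by
    have : IsNilpotent (mk (1 - h)) := by
      refine ⟨L, ?_⟩
      rw [← map_pow, Ideal.Quotient.eq_zero_iff_mem]
      exact Ideal.pow_mem_pow ((mem_idealOfVars_iff _).mpr (by simp [hh])) _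
    simpa using this.isUnit_one_sub
  refine pow_mem_of_dependence (a.map mk) (J.map mk) (m.map mk) (mk f) r N ?_ ?_ ?_
  · have := Ideal.mem_map_of_mem mk hmem
    rw [map_mul, map_pow, Ideal.unit_mul_mem_iff_mem _ hu, Ideal.map_mul, Ideal.map_pow,
      Ideal.map_sup, Ideal.map_span mk {f}, Set.image_singleton] at this
    exact this
  · rw [← Ideal.map_mul]
    refine Ideal.map_mono ?_
    rw [ha, Ideal.span_le]
    rintro _ ⟨i, rfl⟩
    exact Ideal.mul_mem_mul (Ideal.subset_span ⟨i, rfl⟩) (Ideal.subset_span ⟨i, rfl⟩)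
  · rw [← Ideal.map_pow]
    refine le_trans (Ideal.map_mono (pow_le_sup_of_step m J N h1 L)) ?_
    rw [Ideal.map_sup]
    refine sup_le le_rfl (le_trans (le_of_eq ?_) bot_le)
    rw [Ideal.map_eq_bot_iff_le_ker, Ideal.mk_ker]
    exact Ideal.pow_le_pow_right (by omega)

theorem main (f : MvPolynomial (Fin 3) ℂ) (hf : constantCoeff f = 0)
    (hd : ∀ i : Fin 3, constantCoeff (pderiv i f) = 0)
    (hfin : Module.Finite ℂ (MvPowerSeries (Fin 3) ℂ ⧸
      (Ideal.span (Set.range fun i => pderiv i f)).map toS)) :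
    2 * Module.finrank ℂ (MvPowerSeries (Fin 3) ℂ ⧸
      (Ideal.span (Set.range fun i => pderiv i f)).map toS) <
    3 * Module.finrank ℂ (MvPowerSeries (Fin 3) ℂ ⧸
      (Ideal.span (Set.range fun i => pderiv i f) ⊔ Ideal.span {f}).map toS) := by
  obtain ⟨n, hn⟩ := exists_X_pow_mem _ hfin
  set J := Ideal.span (Set.range fun i => pderiv i f) with hJ
  rw [finrank_eq J n hn, finrank_eq (J ⊔ Ideal.span {f}) n
    fun i => Ideal.map_mono le_sup_left (hn i)]
  have h1 : idealOfVars (Fin 3) ℂ ^ (3 * n) ≤ J ⊔ idealOfVars (Fin 3) ℂ ^ (3 * n + 1) :=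
    fun p hp => mem_sup_of_coe_mem J p (coe_mem_of_mem_pow _ n hn p hp) _
  obtain ⟨a, h2⟩ := exists_pow_mem f hf _ h1
  refine field_ineq _ f _ a h1 h2 ?_
  have := finite_quot ℂ J (3 * n)
  have hJm : J ≤ idealOfVars (Fin 3) ℂ := by
    rw [hJ, Ideal.span_le]
    rintro _ ⟨i, rfl⟩
    exact (mem_idealOfVars_iff _).mpr (hd i)
  have hne : J ⊔ idealOfVars (Fin 3) ℂ ^ (3 * n) ≠ ⊤ := by
    intro h
    have h3 : J ⊔ idealOfVars (Fin 3) ℂ ^ (3 * n) ≤ idealOfVars (Fin 3) ℂ :=
      sup_le hJm (le_trans h1 (sup_le hJm (Ideal.pow_le_self (by omega))))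
    rw [h] at h3
    have h4 := (mem_idealOfVars_iff (1 : MvPolynomial (Fin 3) ℂ)).mp (h3 Submodule.mem_top)
    simp at h4
  have := Ideal.Quotient.nontrivial_iff.mpr hne
  exact Module.finrank_pos

end Pool.Agent.MP_75f689_ag
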