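import Pool.Agent.Mg.S00265.Gdb521c

set_option autoImplicit false

namespace Pool.Agent.MP_75f689_ag.Mult

open Module

/-- The lemma of Dedekind and Mertens. -/
theorem dm {S : Type*} [CommRing S] (F : Polynomial S) (n : ℕ) :
    ∀ (G : Polynomial S) (C : Ideal S), (∀ l, n ≤ l → G.coeff l = 0) →
      (∀ i, (F * G).coeff i ∈ C) → ∀ l, ∀ z ∈ Ideal.span (Set.range F.coeff) ^ (n + 1),
        G.coeff l * z ∈ Ideal.span (Set.range F.coeff) ^ n * C := by
  set I := Ideal.span (Set.range F.coeff) with hI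
  have hF : ∀ j, F.coeff j ∈ I := fun j => Ideal.subset_span ⟨j, rfl⟩
  induction n with
  | zero => intro G C h0 _ l z _; simp [h0 l (Nat.zero_le l)]
  | succ n ih =>
    intro G C h0 hC
    obtain ⟨b, hb⟩ : ∃ b, b = G.coeff n := ⟨_, rfl⟩
    obtain ⟨G1, hG1⟩ : ∃ G1, G1 = G - Polynomial.monomial n b := ⟨_, rfl⟩
    have hG : G = G1 + Polynomial.monomial n b := by rw [hG1, sub_add_cancel]
    have h1 : ∀ l, n ≤ l → G1.coeff l = 0 := fun l hl => by
      rw [hG1, Polynomial.coeff_sub, Polynomial.coeff_monomial]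
      split_ifs with h
      · rw [hb, h, sub_self]
      · rw [h0 l (by omega), sub_zero]
    have h2 : ∀ i, (F * G1).coeff i ∈ C ⊔ I * Ideal.span {b} := fun i => by
      rw [hG1, mul_sub, Polynomial.coeff_sub]
      refine Ideal.sub_mem _ (Ideal.mem_sup_left (hC i)) (Ideal.mem_sup_right ?_)
      rw [Polynomial.coeff_mul]
      refine Ideal.sum_mem _ fun c _ => Ideal.mul_mem_mul (hF _) ?_
      rw [Polynomial.coeff_monomial]
      split_ifs
      · exact Ideal.mem_span_singleton_self b
      · exact Ideal.zero_mem _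
    have step : ∀ a ∈ I, (∀ z ∈ I ^ (n + 1), a * (b * z) ∈ I ^ (n + 1) * C) →
        ∀ l, ∀ z ∈ I ^ (n + 1), a * (G1.coeff l * z) ∈ I ^ (n + 1) * C := by
      intro a ha hab l z hz
      have h3 := ih G1 _ h1 h2 l z hz
      rw [Ideal.mul_sup, ← mul_assoc, ← pow_succ] at h3
      obtain ⟨u, hu, v, hv, e⟩ := Submodule.mem_sup.mp h3
      obtain ⟨v', hv', rfl⟩ := Ideal.mem_mul_span_singleton.mp hv
      rw [← e, mul_add]
      refine Ideal.add_mem _ ?_ (by rw [mul_comm v']; exact hab v' hv')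
      rw [pow_succ', mul_assoc]
      exact Ideal.mul_mem_mul ha hu
    have desc : ∀ d i, F.natDegree < i + d → ∀ z ∈ I ^ (n + 1),
        F.coeff i * (b * z) ∈ I ^ (n + 1) * C := by
      intro d
      induction d with
      | zero =>
        intro i hi z _
        rw [Polynomial.coeff_eq_zero_of_natDegree_lt (n := i) hi, zero_mul]
        exact Ideal.zero_mem _
      | succ d ihd =>
        intro i hi z hz
        have e : F.coeff i * (b * z) =
            z * (F * G).coeff (i + n) - (F * G1).coeff (i + n) * z := by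
          rw [hG, mul_add, Polynomial.coeff_add, Polynomial.coeff_mul_monomial]
          ring
        rw [e]
        refine Ideal.sub_mem _ (Ideal.mul_mem_mul hz (hC _)) ?_
        rw [Polynomial.coeff_mul, Finset.sum_mul]
        refine Ideal.sum_mem _ fun c hc => ?_
        replace hc := Finset.HasAntidiagonal.mem_antidiagonal.mp hc
        by_cases hl : n ≤ c.2
        · simp [h1 _ hl]
        · rw [mul_assoc]
          exact step _ (hF _) (ihd c.1 (by omega)) _ z hz
    have hab : ∀ a ∈ I, ∀ z ∈ I ^ (n + 1), a * (b * z) ∈ I ^ (n + 1) * C := by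
      intro a ha z hz
      induction ha using Submodule.span_induction with
      | mem x hx =>
        obtain ⟨j, rfl⟩ := hx
        exact desc (F.natDegree + 1) j (by omega) z hz
      | zero => simp
      | add x y _ _ hx hy => rw [add_mul]; exact Ideal.add_mem _ hx hy
      | smul c x _ hx => rw [smul_eq_mul, mul_assoc]; exact Ideal.mul_mem_left _ _ hx
    intro l z hz
    rw [pow_succ'] at hz
    refine Submodule.mul_induction_on hz (fun a ha y hy => ?_) fun x y hx hy => ?_
    · rw [hG, Polynomial.coeff_add, add_mul, mul_left_comm]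
      refine Ideal.add_mem _ (step a ha (hab a ha) l y hy) ?_
      rw [Polynomial.coeff_monomial]
      split_ifs
      · rw [mul_left_comm]; exact hab a ha y hy
      · simp
    · rw [mul_add]; exact Ideal.add_mem _ hx hy

/-- A pencil of multiplications from `W` to `U` whose polynomial kernel lies in `Y`. -/
theorem pencil {k S : Type} [Field k] [CommRing S] [Algebra k S] [Module.Finite k S]
    (G : Polynomial S) (d : ℕ) (hG : ∀ l, d < l → G.coeff l = 0) (W U Y : Submodule k S)
    (hWU : ∀ w ∈ W, ∀ l, w * G.coeff l ∈ U)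
    (hY : ∀ F : Polynomial S, F * G = 0 → ∀ j, F.coeff j ∈ Y) :
    finrank k W ≤ finrank k Y + finrank k U := by
  obtain ⟨p, hp⟩ := Y.subtype.exists_leftInverse_of_injective Y.ker_subtype
  have key : ∀ D : ℕ, D * finrank k W ≤ D * finrank k Y + (D + d) * finrank k U := by
    intro D
    let L : (Fin D → W) →ₗ[k] Polynomial S :=
      ∑ j : Fin D, (Polynomial.monomial (j : ℕ)).restrictScalars k ∘ₗ W.subtype ∘ₗ LinearMap.proj j
    have hL : ∀ y i, (L y).coeff i = if h : i < D then (y ⟨i, h⟩ : S) else 0 := by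
      intro y i
      simp only [L, LinearMap.sum_apply, LinearMap.comp_apply, LinearMap.restrictScalars_apply,
        LinearMap.proj_apply, Submodule.subtype_apply, Polynomial.finsetSum_coeff,
        Polynomial.coeff_monomial]
      split_ifs with h
      · rw [Finset.sum_eq_single ⟨i, h⟩]
        · simp
        · intro j _ hj
          exact if_neg fun e => hj (Fin.ext e)
        · simp
      · exact Finset.sum_eq_zero fun j _ => if_neg fun e : (j : ℕ) = i => h (e ▸ j.2)
    have hLU : ∀ y i, (L y * G).coeff i ∈ U := by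
      intro y i
      rw [Polynomial.coeff_mul]
      refine U.sum_mem fun c _ => hWU _ ?_ _
      rw [hL]
      split_ifs
      · exact Submodule.coe_mem _
      · exact W.zero_mem
    let Φ : (Fin D → W) →ₗ[k] (Fin D → Y) × (Fin (D + d) → U) :=
      LinearMap.prod (LinearMap.pi fun j => p ∘ₗ W.subtype ∘ₗ LinearMap.proj j)
        (LinearMap.pi fun i => LinearMap.codRestrict U
          ((Polynomial.lcoeff S (i : ℕ)).restrictScalars k ∘ₗ LinearMap.mulRight k G ∘ₗ L)
          fun y => hLU y i)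
    have hΦ : Function.Injective Φ := by
      rw [injective_iff_map_eq_zero]
      intro y hy
      have h0 : L y * G = 0 := by
        ext i
        by_cases hi : i < D + d
        · exact congrArg Subtype.val (congrFun (congrArg Prod.snd hy) ⟨i, hi⟩)
        · rw [Polynomial.coeff_mul, Polynomial.coeff_zero]
          refine Finset.sum_eq_zero fun c hc => ?_
          replace hc := Finset.HasAntidiagonal.mem_antidiagonal.mp hc
          by_cases h : c.1 < D
          · rw [hG c.2 (by omega), mul_zero]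
          · rw [hL, dif_neg h, zero_mul]
      ext j
      have h1 := hY _ h0 j
      rw [hL, dif_pos j.2] at h1
      have h2 : p (y j) = 0 := congrFun (congrArg Prod.fst hy) j
      have h3 : p (y j) = ⟨y j, h1⟩ := LinearMap.congr_fun hp ⟨y j, h1⟩
      exact congrArg (fun t : Y => (t : S)) (h3.symm.trans h2)
    have := LinearMap.finrank_le_finrank_of_injective hΦ
    simpa [Module.finrank_prod, Module.finrank_pi_fintype] using this
  by_contra h
  have h1 := key (d * finrank k U + 1)
  have h2 := Nat.mul_le_mul_left (d * finrank k U + 1) (Nat.succ_le_of_lt (not_le.mp h))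
  nlinarith

section Co

variable (k : Type) [Field k] {R : Type} [CommRing R] [Algebra k R]

/-- The colength of an ideal. -/
noncomputable def co (I : Ideal R) : ℕ := finrank k (R ⧸ I)

/-- The image of an ideal in a quotient ring, as a vector space. -/
def im (I I' : Ideal R) : Submodule k (R ⧸ I) :=
  (I'.map (Ideal.Quotient.mk I)).restrictScalars k

variable {k}

theorem mem_im {I I' : Ideal R} {x : R ⧸ I} :
    x ∈ im k I I' ↔ ∃ p ∈ I', Ideal.Quotient.mk I p = x :=
  Ideal.mem_map_iff_of_surjective _ Ideal.Quotient.mk_surjective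

theorem co_add {I I' : Ideal R} (h : I ≤ I') [Module.Finite k (R ⧸ I)] :
    co k I' + finrank k (im k I I') = co k I := by
  have h1 := (Ideal.Quotient.factorₐ k h).toLinearMap.finrank_range_add_finrank_ker
  have h2 : LinearMap.range (Ideal.Quotient.factorₐ k h).toLinearMap = ⊤ :=
    LinearMap.range_eq_top.mpr fun x => by
      obtain ⟨p, rfl⟩ := Ideal.Quotient.mk_surjective x
      exact ⟨Ideal.Quotient.mk I p, rfl⟩
  have h3 : LinearMap.ker (Ideal.Quotient.factorₐ k h).toLinearMap = im k I I' := by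
    ext x
    obtain ⟨p, rfl⟩ := Ideal.Quotient.mk_surjective x
    exact (Ideal.Quotient.eq_zero_iff_mem (I := I') (a := p)).trans
      (Ideal.mem_quotient_iff_mem h).symm
  rw [h2, h3, finrank_top] at h1
  exact h1

theorem co_mono {I I' : Ideal R} (h : I ≤ I') [Module.Finite k (R ⧸ I)] : co k I' ≤ co k I :=
  co_add (k := k) h ▸ Nat.le_add_right _ _

theorem co_colon (I Y : Ideal R) (z : R) (h : ∀ y ∈ Y, y * z ∈ I) [Module.Finite k (R ⧸ I)]
    [Module.Finite k (R ⧸ Y)] : co k I ≤ co k (I ⊔ Ideal.span {z}) + co k Y := by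
  rw [← co_add (k := k) (le_sup_left : I ≤ I ⊔ Ideal.span {z})]
  let ψ : (R ⧸ Y) →ₗ[k] (R ⧸ I) :=
    (Submodule.liftQ Y (Submodule.mkQ I ∘ₗ LinearMap.mulRight R z) fun y hy =>
      (Submodule.Quotient.mk_eq_zero I).mpr (h y hy)).restrictScalars k
  refine Nat.add_le_add_left (le_trans (Submodule.finrank_mono ?_) ψ.finrank_range_le) _
  intro x hx
  obtain ⟨p, hp, rfl⟩ := mem_im.mp hx
  obtain ⟨a, ha, b, hb, rfl⟩ := Submodule.mem_sup.mp hp
  obtain ⟨c, rfl⟩ := Ideal.mem_span_singleton'.mp hb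
  refine ⟨Ideal.Quotient.mk Y c, ?_⟩
  rw [map_add, Ideal.Quotient.eq_zero_iff_mem.mpr ha, zero_add]
  rfl

theorem sup_pow_le (J M : Ideal R) (a : ℕ) : (J ⊔ M) ^ a ≤ J ^ a ⊔ M := by
  induction a with
  | zero => simp
  | succ a ih =>
    rw [pow_succ, pow_succ]
    refine le_trans (Ideal.mul_mono_left ih) ?_
    rw [Ideal.sup_mul, Ideal.mul_sup]
    exact sup_le (sup_le_sup_left Ideal.mul_le_right _) (le_sup_of_le_right Ideal.mul_le_left)

/-- Counting along the powers of an ideal with three generators. -/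
theorem co_filt (g : Fin 3 → R) (K I : Ideal R) {ι τ : Type} [Fintype ι] [Fintype τ] (u : ι → R)
    (hu : ∀ p : R, ∃ c : ι → k, p - ∑ j, c j • u j ∈ K)
    (hK : K ≤ Ideal.span (Set.range g) ⊔ I) (a L : ℕ) (hL : Ideal.span (Set.range g) ^ L ≤ I)
    (e : τ → Fin 3 → ℕ) (he : ∀ α : Fin 3 → ℕ, a ≤ ∑ i, α i → mon g α ∈ I ∨ ∃ t, e t = α) :
    finrank k (im k I (K ^ a)) ≤ Fintype.card ι * Fintype.card τ := by
  let mk := Ideal.Quotient.mkₐ k I
  have hJ : Ideal.span (Set.range (mk ∘ g)) = (Ideal.span (Set.range g)).map mk := by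
    rw [Ideal.map_span, Set.range_comp]
  have h0 : I.map mk ≤ ⊥ := le_of_eq (Ideal.map_quotient_self I)
  have hKJ : K.map mk ≤ Ideal.span (Set.range (mk ∘ g)) := by
    rw [hJ]
    refine le_trans (Ideal.map_mono hK) ?_
    rw [Ideal.map_sup]
    exact sup_le le_rfl (h0.trans bot_le)
  have hmon : ∀ α, mon (mk ∘ g) α = mk (mon g α) := fun α => by simp [mon]
  rw [← Fintype.card_prod]
  have := Module.Finite.span_of_finite k
    (Set.finite_range fun z : ι × τ => mk (u z.1) * mon (mk ∘ g) (e z.2))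
  refine le_trans (Submodule.finrank_mono (t := Submodule.span k (Set.range
    fun z : ι × τ => mk (u z.1) * mon (mk ∘ g) (e z.2))) ?_) (finrank_range_le_card _)
  intro x hx
  have hx' : x ∈ Ideal.span (Set.range (mk ∘ g)) ^ a := by
    refine Ideal.pow_right_mono hKJ a ?_
    rw [← Ideal.map_pow]
    exact hx
  obtain ⟨y, hy, z, hz, rfl⟩ := Submodule.mem_sup.mp (filt_range (k := k) (mk ∘ g) (mk ∘ u)
    (fun s => by
      obtain ⟨p, rfl⟩ := Ideal.Quotient.mkₐ_surjective k I s
      obtain ⟨c, hc⟩ := hu p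
      have h1 := hKJ (Ideal.mem_map_of_mem mk hc)
      simp only [map_sub, map_sum, map_smul] at h1
      exact ⟨c, h1⟩) a (a + L) (by omega) x hx')
  have hz0 : z = 0 := by
    rw [Submodule.restrictScalars_mem, hJ, ← Ideal.map_pow] at hz
    exact h0 (Ideal.map_mono ((Ideal.pow_le_pow_right (by omega)).trans hL) hz)
  rw [hz0, add_zero]
  refine (Submodule.span_le.mpr ?_) hy
  rintro _ ⟨j, α, ha, -, rfl⟩
  rcases he α ha with h | ⟨t, rfl⟩
  · rw [hmon, show mk (mon g α) = 0 from Ideal.Quotient.eq_zero_iff_mem.mpr h, mul_zero]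
    exact Submodule.zero_mem _
  · exact Submodule.subset_span ⟨(j, t), rfl⟩

theorem co_pow (g : Fin 3 → R) (K : Ideal R) {ι : Type} [Fintype ι] (u : ι → R)
    (hu : ∀ p : R, ∃ c : ι → k, p - ∑ j, c j • u j ∈ K) (s : ℕ)
    (hK : K ≤ Ideal.span (Set.range g) ⊔ K ^ s) (hJ : Ideal.span (Set.range g) ≤ K)
    [Module.Finite k (R ⧸ K ^ s)] : co k (K ^ s) ≤ Fintype.card ι * (tri s).card := by
  have h1 := co_filt g K (K ^ s) u hu hK 0 s (Ideal.pow_right_mono hJ s)
    (fun t : tri s => triv t.1) fun α _ => by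
      by_cases h : ∑ i, α i < s
      · obtain ⟨t, ht, e⟩ := exists_tri s α h
        exact .inr ⟨⟨t, ht⟩, e⟩
      · exact .inl (Ideal.pow_right_mono hJ s
          (Ideal.pow_le_pow_right (not_lt.mp h) (mon_mem g α)))
  have h2 : im k (K ^ s) (K ^ 0) = ⊤ := by
    rw [pow_zero, Ideal.one_eq_top, im, Ideal.map_top, Submodule.restrictScalars_top]
  rwa [h2, finrank_top, Fintype.card_coe] at h1

theorem pigeon (g : Fin 3 → R) (Q w a : ℕ) (hQ : 0 < Q) (h : (w + 3) * Q ≤ a) :
    Ideal.span (Set.range g) ^ a ≤ Ideal.span (Set.range fun i => g i ^ Q) ^ w := by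
  refine le_trans (pow_le_span g a) ?_
  rw [Ideal.span_le]
  rintro _ ⟨α, hα, rfl⟩
  have e : mon g α = mon (fun i => g i ^ Q) (fun i => α i / Q) * mon g fun i => α i % Q := by
    simp only [mon, ← pow_mul, ← Finset.prod_mul_distrib, ← pow_add, Nat.div_add_mod]
  rw [e]
  refine Ideal.mul_mem_right _ _ (Ideal.pow_le_pow_right ?_ (mon_mem _ _))
  have h0 := Nat.div_add_mod (α 0) Q
  have h1 := Nat.div_add_mod (α 1) Q
  have h2 := Nat.div_add_mod (α 2) Q
  have l0 := Nat.mod_lt (α 0) hQ
  have l1 := Nat.mod_lt (α 1) hQ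
  have l2 := Nat.mod_lt (α 2) hQ
  simp only [Fin.sum_univ_three] at hα ⊢
  by_contra hc
  have := Nat.mul_le_mul_left Q (not_le.mp hc).le
  nlinarith

theorem dm_iter (P I C : Ideal R) (h : P * I ^ 4 ≤ I ^ 3 * C) (j : ℕ) :
    P ^ j * I ^ (3 + j) ≤ I ^ 3 * C ^ j := by
  induction j with
  | zero => simp
  | succ j ih =>
    calc P ^ (j + 1) * I ^ (3 + (j + 1)) = (P * I ^ 4) * (P ^ j * I ^ j) := by ring
      _ ≤ (I ^ 3 * C) * (P ^ j * I ^ j) := Ideal.mul_mono_left h
      _ = (P ^ j * I ^ (3 + j)) * C := by ring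
      _ ≤ (I ^ 3 * C ^ j) * C := Ideal.mul_mono_left ih
      _ = I ^ 3 * C ^ (j + 1) := by ring

end Co

section Poly

open MvPolynomial

variable {k : Type} [Field k]

theorem le_co {R V : Type} [CommRing R] [Algebra k R] [AddCommGroup V] [Module k V] (I : Ideal R)
    [Module.Finite k (R ⧸ I)] (π : R →ₗ[k] V) (hs : Function.Surjective π)
    (h0 : ∀ p ∈ I, π p = 0) : finrank k V ≤ co k I := by
  refine LinearMap.finrank_le_finrank_of_surjective
    (f := (I.restrictScalars k).liftQ π h0 ∘ₗ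
      (Submodule.Quotient.restrictScalarsEquiv k I).symm.toLinearMap) fun v => ?_
  obtain ⟨p, rfl⟩ := hs v
  exact ⟨Ideal.Quotient.mk I p, rfl⟩

theorem fin_of_le {I : Ideal (MvPolynomial (Fin 3) k)} {L : ℕ}
    (h : idealOfVars (Fin 3) k ^ L ≤ I) : Module.Finite k (MvPolynomial (Fin 3) k ⧸ I) := by
  have := finite_quot k I L
  rwa [sup_eq_left.mpr h] at this

theorem co_vars_le (n : ℕ) : co k (idealOfVars (Fin 3) k ^ n) ≤ (tri n).card := by
  have := fin_of_le (le_refl (idealOfVars (Fin 3) k ^ n))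
  simpa using co_pow (k := k) X (idealOfVars (Fin 3) k) (fun _ : Unit => 1)
    (fun p => ⟨fun _ => constantCoeff p, by simp [mem_idealOfVars_iff]⟩) n le_sup_left le_rfl

theorem le_co_vars (n : ℕ) : (tri n).card ≤ co k (idealOfVars (Fin 3) k ^ n) := by
  classical
  have := fin_of_le (le_refl (idealOfVars (Fin 3) k ^ n))
  let tv : tri n → Fin 3 →₀ ℕ := fun t => Finsupp.equivFunOnFinite.symm (triv t.1)
  have hinj : Function.Injective tv := by
    rintro ⟨⟨a, b, c⟩, _⟩ ⟨⟨a', b', c'⟩, _⟩ h
    have h1 := Finsupp.equivFunOnFinite.symm.injective h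
    obtain rfl : a = a' := congrFun h1 0
    obtain rfl : b = b' := congrFun h1 1
    obtain rfl : c = c' := congrFun h1 2
    rfl
  have h := le_co (idealOfVars (Fin 3) k ^ n) (LinearMap.pi fun t => lcoeff k (tv t))
    (fun c => ⟨∑ t, monomial (tv t) (c t), by
      ext t
      simp [coeff_monomial, hinj.eq_iff]⟩)
    fun p hp => by
      ext ⟨⟨a, b, c⟩, ht⟩
      refine (mem_pow_idealOfVars_iff' n p).mp hp _ ?_
      simp only [tri, Finset.mem_sigma, Finset.mem_range] at ht
      rw [Finsupp.degree_eq_sum, Fin.sum_univ_three]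
      change a + b + c < n
      omega
  simpa using h

theorem le_co_frob (K : Ideal (MvPolynomial (Fin 3) k)) (q : ℕ) (hq : 0 < q)
    [Module.Finite k (MvPolynomial (Fin 3) k ⧸ K)] [Module.Finite k (MvPolynomial (Fin 3) k ⧸
      K.map (expand q : MvPolynomial (Fin 3) k →ₐ[k] _))] :
    q ^ 3 * co k K ≤ co k (K.map (expand q : MvPolynomial (Fin 3) k →ₐ[k] _)) := by
  classical
  let xa : (Fin 3 → Fin q) → MvPolynomial (Fin 3) k := fun α =>
    monomial (Finsupp.equivFunOnFinite.symm fun i => (α i : ℕ)) 1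
  let π : MvPolynomial (Fin 3) k →ₗ[k] ((Fin 3 → Fin q) → MvPolynomial (Fin 3) k ⧸ K) :=
    LinearMap.pi fun α => (Ideal.Quotient.mkₐ k K).toLinearMap ∘ₗ cart q fun i => (α i : ℕ)
  have h := le_co (K.map (expand q : MvPolynomial (Fin 3) k →ₐ[k] _)) π (by
    intro y
    choose r hr using fun α => Ideal.Quotient.mk_surjective (I := K) (y α)
    refine ⟨∑ β, xa β * expand q (r β), ?_⟩
    ext α
    simp only [π, map_sum, LinearMap.pi_apply, LinearMap.comp_apply,
      cart_mul_expand q hq, AlgHom.toLinearMap_apply, Ideal.Quotient.mkₐ_eq_mk]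
    rw [Finset.sum_eq_single α]
    · simp only [xa, cart_monomial]
      rw [if_pos (fun i => by simpa using Nat.mod_eq_of_lt (α i).2)]
      have : (Finsupp.mapRange (· / q) (by simp)
          (Finsupp.equivFunOnFinite.symm fun i => (α i : ℕ))) = 0 := by
        ext i
        simp
      rw [this, ← hr α]
      simp
    · intro β _ hβ
      simp only [xa, cart_monomial]
      rw [if_neg]
      · simp
      · intro h
        apply hβ
        ext i
        have := h i
        simpa [Nat.mod_eq_of_lt (β i).2] using this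
    · simp) fun p hp => by
      ext α
      simpa [π, Ideal.Quotient.eq_zero_iff_mem] using cart_mem q hq _ K p hp
  rw [Module.finrank_pi_fintype] at h
  simpa [co] using h

theorem co_frob_le (K : Ideal (MvPolynomial (Fin 3) k)) (q : ℕ) (hq : 0 < q)
    {κ : Type} [Fintype κ] (v : κ → MvPolynomial (Fin 3) k)
    (hv : ∀ p, ∃ c : κ → k, p - ∑ l, c l • v l ∈ K) :
    co k (K.map (expand q : MvPolynomial (Fin 3) k →ₐ[k] _)) ≤ q ^ 3 * Fintype.card κ := by
  classical
  let E : MvPolynomial (Fin 3) k →ₐ[k] MvPolynomial (Fin 3) k := expand q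
  let mk := Ideal.Quotient.mkₐ k (K.map E)
  let xa : (Fin 3 → Fin q) → MvPolynomial (Fin 3) k := fun α =>
    monomial (Finsupp.equivFunOnFinite.symm fun i => (α i : ℕ)) 1
  have h := finrank_le_of_span_eq_top (R := k)
    (v := fun z : (Fin 3 → Fin q) × κ => mk (xa z.1 * E (v z.2))) (by
    rw [eq_top_iff]
    rintro x -
    obtain ⟨p, rfl⟩ := Ideal.Quotient.mkₐ_surjective k _ x
    induction p using MvPolynomial.induction_on' with
    | add p s hp hs => rw [map_add]; exact Submodule.add_mem _ hp hs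
    | monomial γ d =>
      let α : Fin 3 → Fin q := fun i => ⟨γ i % q, Nat.mod_lt _ hq⟩
      obtain ⟨c, hc⟩ := hv (monomial (γ.mapRange (· / q) (by simp)) d)
      have hγ : (monomial γ d : MvPolynomial (Fin 3) k) =
          xa α * E (monomial (γ.mapRange (· / q) (by simp)) d) := by
        simp only [xa, E, expand_monomial, monomial_mul, one_mul]
        congr 2
        ext i
        simp [α, Nat.mod_add_div]
      have h3 : mk (xa α * E (monomial (γ.mapRange (· / q) (by simp)) d - ∑ l, c l • v l)) = 0 :=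
        Ideal.Quotient.eq_zero_iff_mem.mpr (Ideal.mul_mem_left _ _ (Ideal.mem_map_of_mem _ hc))
      rw [map_sub, mul_sub, map_sub, sub_eq_zero, ← hγ] at h3
      change mk _ ∈ _
      rw [h3, map_sum, Finset.mul_sum, map_sum]
      refine Submodule.sum_mem _ fun l _ => ?_
      rw [map_smul, mul_smul_comm, map_smul]
      exact Submodule.smul_mem _ _ (Submodule.subset_span ⟨(α, l), rfl⟩))
  simpa [co] using h

theorem vars_le_frob [Fintype k] (K : Ideal (MvPolynomial (Fin 3) k)) (N j : ℕ)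
    (h : idealOfVars (Fin 3) k ^ N ≤ K) : idealOfVars (Fin 3) k ^ (3 * (N * Fintype.card k ^ j)) ≤
      K.map (expand (Fintype.card k ^ j) : MvPolynomial (Fin 3) k →ₐ[k] _) := by
  apply pow_three_mul_le
  intro i
  rw [pow_mul, ← expand_eq_pow]
  exact Ideal.mem_map_of_mem _ (h (Ideal.pow_mem_pow (Ideal.subset_span (Set.mem_range_self i)) _))

theorem frob_step [Finite k] (g : Fin 3 → MvPolynomial (Fin 3) k)
    (K : Ideal (MvPolynomial (Fin 3) k)) (N : ℕ) (hJK : Ideal.span (Set.range g) ≤ K)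
    (hKJ : ∀ L, K ≤ Ideal.span (Set.range g) ⊔ idealOfVars (Fin 3) k ^ L)
    (hmK : idealOfVars (Fin 3) k ^ N ≤ K) (w t : ℕ) (ht : 0 < t)
    (I : Ideal (MvPolynomial (Fin 3) k))
    (h : Ideal.span (Set.range fun i => X i ^ t) * I ^ 4 ≤ I ^ 3 * K ^ (w + 4))
    {y z : MvPolynomial (Fin 3) k} (hy : y ∈ I) (hz : z ∈ idealOfVars (Fin 3) k ^ t) :
    y * z ∈ K ^ w := by
  have := Fintype.ofFinite k
  have hQ : 3 * (w + 4) < Fintype.card k ^ (3 * (w + 4)) := Nat.lt_pow_self Fintype.one_lt_card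
  have hE := expand_eq_pow (k := k) (σ := Fin 3) (3 * (w + 4))
  have hm := vars_le_frob (K ^ w) (N * w) (3 * (w + 4))
    (by rw [pow_mul]; exact Ideal.pow_right_mono hmK w)
  generalize Fintype.card k ^ (3 * (w + 4)) = Q at hQ hE hm
  obtain ⟨j, rfl⟩ : ∃ j, Q = 3 + j := ⟨Q - 3, by omega⟩
  have h1 : (y * z) ^ (3 + j) ∈ K ^ ((w + 4) * j) := by
    have e1 : z ^ (3 + j) ∈ Ideal.span (Set.range fun i => X i ^ t) ^ j := by
      refine pigeon X t j (t * (3 + j)) ht (le_of_eq (by ring)) ?_
      rw [pow_mul]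
      exact Ideal.pow_mem_pow hz _
    have e2 := dm_iter _ I (K ^ (w + 4)) h j (Ideal.mul_mem_mul e1 (Ideal.pow_mem_pow hy (3 + j)))
    rw [mul_pow, mul_comm (y ^ (3 + j)), pow_mul K]
    exact Ideal.mul_le_right e2
  have h2 : K ^ ((w + 4) * j) ≤
      (K ^ w).map (expand (3 + j) : MvPolynomial (Fin 3) k →ₐ[k] _) := by
    refine le_trans (Ideal.pow_right_mono (hKJ _) _) (le_trans (sup_pow_le _ _ _) (sup_le ?_ hm))
    refine le_trans (pigeon g (3 + j) w _ (by omega) (by nlinarith)) ?_
    rw [Ideal.map_pow]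
    refine Ideal.pow_right_mono (Ideal.span_le.mpr ?_) w
    rintro _ ⟨i, rfl⟩
    change g i ^ (3 + j) ∈ K.map _
    rw [← hE]
    exact Ideal.mem_map_of_mem _ (hJK (Ideal.subset_span ⟨i, rfl⟩))
  have h3 := cart_mem (3 + j) (by omega) 0 _ _ (h2 h1)
  rw [← hE, ← one_mul (expand (3 + j) (y * z)), cart_mul_expand _ (by omega), ← C_1, C_apply,
    cart_monomial, if_pos (by simp)] at h3
  simpa using h3

/-- The elements killed by a power of the maximal ideal modulo a power of `K`. -/
theorem socle [Finite k] (g : Fin 3 → MvPolynomial (Fin 3) k)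
    (K : Ideal (MvPolynomial (Fin 3) k)) (N : ℕ) (hJK : Ideal.span (Set.range g) ≤ K)
    (hKJ : ∀ L, K ≤ Ideal.span (Set.range g) ⊔ idealOfVars (Fin 3) k ^ L)
    (hmK : idealOfVars (Fin 3) k ^ N ≤ K) (e w t a : ℕ) (ht : 0 < t)
    (he : K ≤ idealOfVars (Fin 3) k ^ e) (ha : a + t = e * (w + 4)) :
    co k ((K ^ w).colon (↑(idealOfVars (Fin 3) k ^ t) : Set (MvPolynomial (Fin 3) k))) +
      (tri (a + t)).card ≤ co k (K ^ (w + 4)) + (tri a).card := by
  set m := idealOfVars (Fin 3) k with hm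
  set Y : Ideal (MvPolynomial (Fin 3) k) := (K ^ w).colon (↑(m ^ t) : Set _) with hY
  have : Module.Finite k (MvPolynomial (Fin 3) k ⧸ K ^ (w + 4)) :=
    fin_of_le (L := N * (w + 4)) (by rw [pow_mul]; exact Ideal.pow_right_mono hmK _)
  have hU : K ^ (w + 4) ≤ m ^ (a + t) := by
    rw [ha, pow_mul]; exact Ideal.pow_right_mono he _
  have c1 := co_add (k := k) hU
  have c2 := co_add (k := k) (hU.trans (Ideal.pow_le_pow_right (Nat.le_add_right a t)))
  have c3 := co_add (k := k) (I' := Y)
    ((Ideal.pow_le_pow_right (Nat.le_add_right w 4)).trans Ideal.le_colon)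
  have c4 : (tri (a + t)).card ≤ co k (m ^ (a + t)) := le_co_vars _
  have c5 : co k (m ^ a) ≤ (tri a).card := co_vars_le _
  let G : Polynomial (MvPolynomial (Fin 3) k) :=
    ∑ i : Fin 3, Polynomial.monomial (i : ℕ) (X i ^ t)
  have hG : ∀ l, G.coeff l = if h : l < 3 then X ⟨l, h⟩ ^ t else 0 := fun l => by
    simp only [G, Polynomial.finsetSum_coeff, Polynomial.coeff_monomial]
    split_ifs with h
    · rw [Finset.sum_eq_single ⟨l, h⟩]
      · simp
      · intro j _ hj
        exact if_neg fun e => hj (Fin.ext e)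
      · simp
    · exact Finset.sum_eq_zero fun j _ => if_neg fun e : (j : ℕ) = l => h (e ▸ j.2)
  have c6 := pencil (k := k) (G.map (Ideal.Quotient.mk (K ^ (w + 4)))) 2
    (fun l hl => by rw [Polynomial.coeff_map, hG, dif_neg (by omega), map_zero])
    (im k _ (m ^ a)) (im k _ (m ^ (a + t))) (im k _ Y) (fun x hx l => by
      obtain ⟨p, hp, rfl⟩ := mem_im.mp hx
      refine mem_im.mpr ⟨p * G.coeff l, ?_, by rw [map_mul, Polynomial.coeff_map]⟩
      rw [pow_add, hG]
      refine Ideal.mul_mem_mul hp ?_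
      split_ifs
      · exact Ideal.pow_mem_pow (Ideal.subset_span (Set.mem_range_self _)) _
      · exact Ideal.zero_mem _) fun F hF j => by
    obtain ⟨F, rfl⟩ := Polynomial.map_surjective _
      (Ideal.Quotient.mk_surjective (I := K ^ (w + 4))) F
    refine mem_im.mpr ⟨F.coeff j, Submodule.mem_colon.mpr fun z hz => ?_,
      (Polynomial.coeff_map _ _).symm⟩
    have hd := dm F 3 G (K ^ (w + 4)) (fun l hl => by rw [hG, dif_neg (by omega)]) fun i => by
      rw [← Ideal.Quotient.eq_zero_iff_mem, ← Polynomial.coeff_map, Polynomial.map_mul, hF,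
        Polynomial.coeff_zero]
    refine frob_step g K N hJK hKJ hmK w t ht (Ideal.span (Set.range F.coeff)) ?_
      (Ideal.subset_span ⟨j, rfl⟩) hz
    refine Ideal.mul_le.mpr fun r hr s hs => ?_
    refine Submodule.mem_colon.mp ((Ideal.span_le.mpr ?_ : _ ≤ Submodule.colon _
      (↑(Ideal.span (Set.range F.coeff) ^ 4) : Set _)) hr) s hs
    rintro _ ⟨i, rfl⟩
    refine Submodule.mem_colon.mpr fun s hs => ?_
    have := hd i s hs
    rwa [hG, dif_pos i.2] at this
  omega

end Poly

end Pool.Agent.MP_75f689_ag.Mult
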