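import Pool.Agent.MP_75f689_ag.MultA

set_option autoImplicit false

namespace Pool.Agent.MP_75f689_ag.Mult

open Module MvPolynomial

theorem pow_mem_dep {Q : Type*} [CommRing Q] (a : Ideal Q) (f : Q) (r : ℕ)
    (hf : f ^ (r + 1) ∈ a * (a ⊔ Ideal.span {f}) ^ r) (t : ℕ) : f ^ (r + t) ∈ a ^ t := by
  set I := a ⊔ Ideal.span {f} with hI
  have hfI : f ∈ I := Ideal.mem_sup_right (Ideal.mem_span_singleton_self f)
  have h0 : ∀ n, I ^ (n + 1) ≤ a * I ^ n ⊔ Ideal.span {f ^ (n + 1)} := by
    intro n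
    induction n with
    | zero => simp [hI]
    | succ n ih =>
      rw [pow_succ I (n + 1)]
      refine le_trans (Ideal.mul_mono_left ih) ?_
      rw [Ideal.sup_mul, mul_assoc, ← pow_succ]
      refine sup_le le_sup_left ?_
      conv_lhs => rw [hI]
      rw [Ideal.mul_sup, Ideal.span_singleton_mul_span_singleton, ← pow_succ]
      refine sup_le (le_trans ?_ le_sup_left) le_sup_right
      rw [mul_comm]
      exact Ideal.mul_mono_right
        ((Ideal.span_singleton_le_iff_mem _).mpr (Ideal.pow_mem_pow hfI _))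
  have h1 : I ^ (r + 1) ≤ a * I ^ r :=
    le_trans (h0 r) (sup_le le_rfl ((Ideal.span_singleton_le_iff_mem _).mpr hf))
  have h2 : ∀ t, I ^ (r + t) ≤ a ^ t * I ^ r := by
    intro t
    induction t with
    | zero => simp
    | succ t ih =>
      rw [← add_assoc, pow_succ I (r + t)]
      refine le_trans (Ideal.mul_mono_left ih) ?_
      rw [mul_assoc, ← pow_succ I r, pow_succ a t, mul_assoc]
      exact Ideal.mul_mono_right h1
  exact Ideal.mul_le_left (h2 t (Ideal.pow_mem_pow hfI _))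

theorem cube_le (c q d : ℕ) (h : d ≤ q) :
    (c * q + d) ^ 3 ≤ c ^ 3 * q ^ 3 + d * (3 * c ^ 2 + 3 * c + 1) * q ^ 2 := by
  obtain ⟨s, rfl⟩ := Nat.exists_eq_add_of_le h
  exact Nat.le.intro (k := 3 * c * (d + s) * d * s + d * (2 * d * s + s ^ 2)) (by ring)

theorem tri_le (n m : ℕ) (h : n + 2 ≤ m) : 6 * (tri n).card ≤ m ^ 3 := by
  rw [card_tri, pow_three']
  exact Nat.mul_le_mul (Nat.mul_le_mul (by omega) (by omega)) h

theorem le_tri (n : ℕ) : n ^ 3 ≤ 6 * (tri n).card := by
  rw [card_tri, pow_three']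
  exact Nat.mul_le_mul (Nat.mul_le_mul le_rfl (by omega)) (by omega)

theorem numeric (μ τ a r q : ℕ) (hq : (r + 4) * (14 * μ + (3 * a ^ 2 + 3 * a + 1)) < q)
    (h : q ^ 3 * μ + (tri ((a + 1) * q)).card ≤ q ^ 3 * τ + μ * (tri q).card +
      μ * (tri (q + r + 2)).card + (tri (a * q + r)).card) :
    4 * μ + (a + 1) ^ 3 ≤ 6 * τ + a ^ 3 := by
  have hd : r + 4 ≤ q := le_trans (Nat.le_mul_of_pos_right _ (by omega)) hq.le
  have h1 := Nat.mul_le_mul_left μ ((tri_le q (1 * q + (r + 4)) (by omega)).trans (cube_le 1 q _ hd))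
  have h2 := Nat.mul_le_mul_left μ
    ((tri_le (q + r + 2) (1 * q + (r + 4)) (by omega)).trans (cube_le 1 q _ hd))
  have h3 := (tri_le (a * q + r) (a * q + (r + 4)) (by omega)).trans (cube_le a q _ hd)
  have h4 := le_tri ((a + 1) * q)
  by_contra hc
  have h5 := Nat.mul_le_mul_left (q ^ 3) (Nat.succ_le_of_lt (not_le.mp hc))
  have h6 := Nat.mul_lt_mul_of_pos_right hq (pow_pos (show 0 < q by omega) 2)
  nlinarith

/-- The inequality over a finite field. -/
theorem charP {k : Type} [Field k] [Finite k] (g : Fin 3 → MvPolynomial (Fin 3) k)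
    (f : MvPolynomial (Fin 3) k) (K : Ideal (MvPolynomial (Fin 3) k)) (N r a : ℕ)
    (hJK : Ideal.span (Set.range g) ≤ K)
    (hKJ : ∀ L, K ≤ Ideal.span (Set.range g) ⊔ idealOfVars (Fin 3) k ^ L)
    (hmK : idealOfVars (Fin 3) k ^ N ≤ K) (he : K ≤ idealOfVars (Fin 3) k ^ (a + 1))
    (h2 : f ^ (r + 1) ∈ (idealOfVars (Fin 3) k * K) *
      (idealOfVars (Fin 3) k * K ⊔ Ideal.span {f}) ^ r)
    {κ : Type} [Fintype κ] (v : κ → MvPolynomial (Fin 3) k)
    (hv : ∀ p, ∃ c : κ → k, p - ∑ l, c l • v l ∈ K ⊔ Ideal.span {f}) :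
    4 * co k K + (a + 1) ^ 3 ≤ 6 * Fintype.card κ + a ^ 3 := by
  classical
  have := Fintype.ofFinite k
  have := fin_of_le hmK
  let b : Basis (Fin (co k K)) k (MvPolynomial (Fin 3) k ⧸ K) := Module.finBasis k _
  choose u hub using fun j => Ideal.Quotient.mk_surjective (I := K) (b j)
  have hu : ∀ p : MvPolynomial (Fin 3) k, ∃ c : Fin (co k K) → k, p - ∑ j, c j • u j ∈ K := by
    intro p
    refine ⟨fun j => b.repr (Ideal.Quotient.mk K p) j, ?_⟩
    rw [← Ideal.Quotient.eq, ← Ideal.Quotient.mkₐ_eq_mk k, map_sum]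
    simp only [map_smul, Ideal.Quotient.mkₐ_eq_mk, hub]
    exact (b.sum_repr _).symm
  obtain ⟨M, hM⟩ : ∃ M, M = (r + 4) * (14 * co k K + (3 * a ^ 2 + 3 * a + 1)) := ⟨_, rfl⟩
  have hQ : M < Fintype.card k ^ M := Nat.lt_pow_self Fintype.one_lt_card
  have hE := expand_eq_pow (k := k) (σ := Fin 3) M
  have hm := vars_le_frob K N M hmK
  generalize Fintype.card k ^ M = q at hQ hE hm
  have hd : r + 4 ≤ M := hM ▸ Nat.le_mul_of_pos_right _ (by omega)
  refine numeric _ _ a r q (hM ▸ hQ) ?_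
  obtain ⟨w, hw⟩ : ∃ w, w + 4 = q := ⟨q - 4, by omega⟩
  obtain ⟨t, ht⟩ : ∃ t, r + t = q := ⟨q - r, by omega⟩
  set E : MvPolynomial (Fin 3) k →ₐ[k] MvPolynomial (Fin 3) k := expand q with hEd
  have hgq : ∀ i, g i ^ q ∈ K.map E := fun i => by
    rw [← hE]
    exact Ideal.mem_map_of_mem _ (hJK (Ideal.subset_span ⟨i, rfl⟩))
  have hp : ∀ s, idealOfVars (Fin 3) k ^ (N * s) ≤ K ^ s := fun s => by
    rw [pow_mul]; exact Ideal.pow_right_mono hmK s
  have := fin_of_le hm
  have := fin_of_le (hm.trans (le_sup_left (b := K ^ (w + t))))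
  have := fin_of_le (hm.trans (Ideal.map_mono (le_sup_left (b := Ideal.span {f}))))
  have := fin_of_le (hp q)
  have := fin_of_le ((hp w).trans (Ideal.le_colon
    (S := (↑(idealOfVars (Fin 3) k ^ t) : Set (MvPolynomial (Fin 3) k)))))
  have c1 := le_co_frob K q (by omega)
  have c2 := co_add (k := k) (le_sup_left : K.map E ≤ K.map E ⊔ K ^ (w + t))
  have c3 := co_filt g K (K.map E) u hu ((hKJ _).trans (sup_le_sup_left hm _)) (w + t) (3 * q)
    (pow_three_mul_le g _ q hgq) (fun s : tri (q + r + 2) => fun i => q - 1 - triv s.1 i)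
    fun α hα => by
      by_cases hbig : ∃ i, q ≤ α i
      · obtain ⟨i, hi⟩ := hbig
        exact .inl (mon_mem_of_le g _ q hgq α i hi)
      · push Not at hbig
        have hs0 := hbig 0
        have hs1 := hbig 1
        have hs2 := hbig 2
        obtain ⟨s, hs, e⟩ := exists_tri (q + r + 2) (fun i => q - 1 - α i) (by
          simp only [Fin.sum_univ_three] at hα ⊢
          omega)
        refine .inr ⟨⟨s, hs⟩, funext fun i => ?_⟩
        have := hbig i
        simp only [e]
        omega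
  have e3 : im k (K.map E) (K.map E ⊔ K ^ (w + t)) = im k (K.map E) (K ^ (w + t)) := by
    rw [im, im, Ideal.map_sup, Ideal.map_quotient_self, bot_sup_eq]
  have c4 := co_colon (k := k) (K.map E ⊔ K ^ (w + t)) ((K ^ w).colon
      (↑(idealOfVars (Fin 3) k ^ t) : Set (MvPolynomial (Fin 3) k))) (f ^ q) fun y hy => by
    have h3 := pow_mem_dep _ f r h2 t
    rw [ht, mul_pow] at h3
    refine Ideal.mem_sup_right (Submodule.mul_induction_on h3 (fun z hz c hc => ?_) fun x y hx hy => ?_)
    · rw [← mul_assoc, pow_add]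
      exact Ideal.mul_mem_mul (Submodule.mem_colon.mp hy z hz) hc
    · rw [mul_add]; exact Ideal.add_mem _ hx hy
  have c5 : co k (K.map E ⊔ K ^ (w + t) ⊔ Ideal.span {f ^ q}) ≤
      co k ((K ⊔ Ideal.span {f}).map E) := co_mono (by
    rw [Ideal.map_sup, Ideal.map_span, Set.image_singleton, hE]
    exact sup_le_sup_right le_sup_left _)
  have c6 := co_frob_le _ q (by omega) v hv
  have c7 := socle g K N hJK hKJ hmK (a + 1) w t (a * q + r) (by omega) he (by
    rw [hw, add_assoc, ht]; ring)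
  have c8 := co_pow g K u hu q ((hKJ _).trans (sup_le_sup_left (hp q) _)) hJK
  rw [hw, show a * q + r + t = (a + 1) * q by rw [add_assoc, ht]; ring] at c7
  rw [e3] at c2
  rw [Fintype.card_fin] at c3 c8
  rw [Fintype.card_coe] at c3
  rw [← hEd] at c1 c6
  omega

/-- Generators of the ideal in the equation of integral dependence. -/
noncomputable def gen {A : Type} [CommRing A] (g : Fin 3 → MvPolynomial (Fin 3) A)
    (f : MvPolynomial (Fin 3) A) (r : ℕ) (δ : Fin 3 × (Fin r → Option (Fin 3))) :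
    MvPolynomial (Fin 3) A :=
  X δ.1 * g δ.1 * ∏ l, (δ.2 l).elim f fun i => X i * g i

theorem map_gen {A B : Type} [CommRing A] [CommRing B] (i : A →+* B)
    (g : Fin 3 → MvPolynomial (Fin 3) A) (f : MvPolynomial (Fin 3) A) (r : ℕ)
    (δ : Fin 3 × (Fin r → Option (Fin 3))) :
    map i (gen g f r δ) = gen (fun j => map i (g j)) (map i f) r δ := by
  simp only [gen, map_mul, map_prod, map_X]
  refine congrArg _ (Finset.prod_congr rfl fun l _ => ?_)
  cases δ.2 l <;> simp

theorem gen_mem {A : Type} [CommRing A] (g : Fin 3 → MvPolynomial (Fin 3) A)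
    (f : MvPolynomial (Fin 3) A) (r : ℕ) (K : Ideal (MvPolynomial (Fin 3) A))
    (h : Ideal.span (Set.range g) ≤ K) (δ : Fin 3 × (Fin r → Option (Fin 3))) :
    gen g f r δ ∈ (idealOfVars (Fin 3) A * K) *
      (idealOfVars (Fin 3) A * K ⊔ Ideal.span {f}) ^ r := by
  have h1 : ∀ i, X i * g i ∈ idealOfVars (Fin 3) A * K := fun i =>
    Ideal.mul_mem_mul (Ideal.subset_span ⟨i, rfl⟩) (h (Ideal.subset_span ⟨i, rfl⟩))
  refine Ideal.mul_mem_mul (h1 _) ?_
  have h2 := Ideal.prod_mem_prod (s := (Finset.univ : Finset (Fin r)))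
    (I := fun _ => idealOfVars (Fin 3) A * K ⊔ Ideal.span {f})
    (x := fun l => (δ.2 l).elim f fun i => X i * g i) fun l _ => by
      cases δ.2 l
      · exact Ideal.mem_sup_right (Ideal.mem_span_singleton_self f)
      · exact Ideal.mem_sup_left (h1 _)
  rwa [Finset.prod_const, Finset.card_fin] at h2

theorem le_span_gen {A : Type} [CommRing A] (g : Fin 3 → MvPolynomial (Fin 3) A)
    (f : MvPolynomial (Fin 3) A) (r : ℕ) :
    Ideal.span (Set.range fun i => X i * g i) *
      (Ideal.span (Set.range fun i => X i * g i) ⊔ Ideal.span {f}) ^ r ≤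
      Ideal.span (Set.range (gen g f r)) := by
  have h1 : Ideal.span (Set.range fun i => X i * g i) ⊔ Ideal.span {f} ≤
      Ideal.span (Set.range fun o : Option (Fin 3) => o.elim f fun i => X i * g i) := by
    refine sup_le (Ideal.span_mono ?_) (Ideal.span_mono ?_)
    · rintro _ ⟨i, rfl⟩
      exact ⟨some i, rfl⟩
    · rintro _ rfl
      exact ⟨none, rfl⟩
  refine le_trans (Ideal.mul_mono_right (Ideal.pow_right_mono h1 r)) ?_
  conv_lhs => rw [← Finset.card_fin r, ← Finset.prod_const, Ideal.prod_span, Ideal.span_mul_span']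
  refine Ideal.span_mono ?_
  rintro _ ⟨_, ⟨i, rfl⟩, y, hy, rfl⟩
  obtain ⟨x, hx, rfl⟩ := (Set.mem_fintype_prod _ _).mp hy
  choose o ho using hx
  exact ⟨(i, o), by simp only [gen, ho]⟩

/-- The inequality over an arbitrary field. -/
theorem field_mult {K : Type} [Field K] (g : Fin 3 → MvPolynomial (Fin 3) K)
    (f : MvPolynomial (Fin 3) K) (N r a : ℕ)
    (h1 : idealOfVars (Fin 3) K ^ N ≤
      Ideal.span (Set.range g) ⊔ idealOfVars (Fin 3) K ^ (N + 1))
    (hg : ∀ i, g i ∈ idealOfVars (Fin 3) K ^ (a + 1))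
    (h2 : f ^ (r + 1) ∈ Ideal.span (Set.range (gen g f r)) ⊔
      idealOfVars (Fin 3) K ^ ((N + 1) * (r + 1))) :
    4 * Module.finrank K (MvPolynomial (Fin 3) K ⧸
      (Ideal.span (Set.range g) ⊔ idealOfVars (Fin 3) K ^ N)) + (a + 1) ^ 3 ≤
    6 * Module.finrank K (MvPolynomial (Fin 3) K ⧸
      ((Ideal.span (Set.range g) ⊔ Ideal.span {f}) ⊔ idealOfVars (Fin 3) K ^ N)) + a ^ 3 := by
  classical
  -- first certificate
  have c1 : ∀ γ : Low (N + 1), ∃ c : Fin 3 → MvPolynomial (Fin 3) K, γ.1.degree = N →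
      monomial γ.1 1 - ∑ i, c i * g i ∈ idealOfVars (Fin 3) K ^ (N + 1) := by
    intro γ
    by_cases h : γ.1.degree = N
    · obtain ⟨c, hc⟩ := (mem_sup_iff_cert g _ _).mp
        (h1 ((monomial_mem_pow_idealOfVars_iff N γ.1 one_ne_zero).mpr h.ge))
      exact ⟨c, fun _ => hc⟩
    · exact ⟨0, fun h' => absurd h' h⟩
  choose a1 ha1 using c1
  -- second certificate
  obtain ⟨a2, ha2⟩ := (mem_sup_iff_cert _ _ _).mp h2
  -- third certificate
  set I3 := (Ideal.span (Set.range g) ⊔ Ideal.span {f}) ⊔ idealOfVars (Fin 3) K ^ N with hI3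
  have := finite_quot K (Ideal.span (Set.range g) ⊔ Ideal.span {f}) N
  set τ := Module.finrank K (MvPolynomial (Fin 3) K ⧸ I3) with hτ
  let b3 := Module.finBasis K (MvPolynomial (Fin 3) K ⧸ I3)
  choose v hv using fun l => Ideal.Quotient.mkₐ_surjective K I3 (b3 l)
  have c3 : ∀ γ : Low N, ∃ (c : Fin τ → K) (r : MvPolynomial (Fin 3) K)
      (e : Fin 3 → MvPolynomial (Fin 3) K),
      monomial γ.1 1 - ∑ l, C (c l) * v l - f * r - ∑ i, e i * g i ∈
        idealOfVars (Fin 3) K ^ N := by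
    intro γ
    have h := b3.sum_repr (Ideal.Quotient.mkₐ K I3 (monomial γ.1 1))
    set c := b3.repr (Ideal.Quotient.mkₐ K I3 (monomial γ.1 1))
    have h' : monomial γ.1 1 - ∑ l, C (c l) * v l ∈ I3 := by
      rw [← Ideal.Quotient.eq_zero_iff_mem]
      change Ideal.Quotient.mkₐ K I3 _ = 0
      rw [map_sub, ← h, map_sum, sub_eq_zero]
      refine Finset.sum_congr rfl fun l _ => ?_
      rw [← hv, C_mul', map_smul]
    have hle : I3 ≤ (Ideal.span (Set.range g) ⊔ idealOfVars (Fin 3) K ^ N) ⊔ Ideal.span {f} :=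
      (sup_right_comm _ _ _).le
    obtain ⟨y, hy, z, hz, e⟩ := Submodule.mem_sup.mp (hle h')
    obtain ⟨r, rfl⟩ := Ideal.mem_span_singleton'.mp hz
    obtain ⟨e', he'⟩ := (mem_sup_iff_cert g _ _).mp hy
    refine ⟨c, r, e', ?_⟩
    rw [← e]
    convert he' using 1
    ring
  choose c3 r3 a3 ha3 using c3
  -- fourth certificate
  set I4 := Ideal.span (Set.range g) ⊔ idealOfVars (Fin 3) K ^ N with hI4
  have := finite_quot K (Ideal.span (Set.range g)) N
  set μ := Module.finrank K (MvPolynomial (Fin 3) K ⧸ I4) with hμdef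
  let b4 := Module.finBasis K (MvPolynomial (Fin 3) K ⧸ I4)
  choose u hu using fun l => Ideal.Quotient.mkₐ_surjective K I4 (b4 l)
  let L : Fin μ → MvPolynomial (Fin 3) K →ₗ[K] K := fun j =>
    b4.coord j ∘ₗ (Ideal.Quotient.mkₐ K I4).toLinearMap
  have hL0 : ∀ j, ∀ p ∈ I4, L j p = 0 := by
    intro j p hp
    have : Ideal.Quotient.mkₐ K I4 p = 0 := Ideal.Quotient.eq_zero_iff_mem.mpr hp
    change b4.coord j (Ideal.Quotient.mkₐ K I4 p) = 0
    rw [this, map_zero]
  have hLu : ∀ j l, L j (u l) = if l = j then 1 else 0 := by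
    intro j l
    change b4.coord j (Ideal.Quotient.mkₐ K I4 (u l)) = _
    rw [hu, Module.Basis.coord_apply, Module.Basis.repr_self, Finsupp.single_apply]
  let w : Fin μ → Low N → K := fun j γ => L j (monomial γ.1 1)
  have hw : ∀ j p, pair (w j) p = L j p := fun j p =>
    eq_pair (L j) (fun q hq => hL0 j q (Ideal.mem_sup_right hq)) p
  -- spreading out
  obtain ⟨A, _, i, k, _, _, φ, lp, ls, hi, hlp, hls⟩ := exists_lift
    (Set.range g ∪ {f} ∪ Set.range (Function.uncurry a1) ∪ Set.range a2 ∪ Set.range v ∪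
      Set.range r3 ∪ Set.range (Function.uncurry a3) ∪ Set.range u)
    (by simp only [Set.finite_union]
        refine ⟨⟨⟨⟨⟨⟨⟨?_, ?_⟩, ?_⟩, ?_⟩, ?_⟩, ?_⟩, ?_⟩, ?_⟩ <;>
          first | exact Set.finite_range _ | exact Set.finite_singleton _)
    (Set.range (Function.uncurry c3) ∪ Set.range (Function.uncurry w))
    ((Set.finite_range _).union (Set.finite_range _))
  have eg : ∀ j, map i (lp (g j)) = g j := fun j => hlp _ (by simp)
  have ef : map i (lp f) = f := hlp _ (by simp)
  have ea1 : ∀ γ j, map i (lp (a1 γ j)) = a1 γ j := fun γ j => hlp _ (by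
    simp only [Set.mem_union]
    exact .inl (.inl (.inl (.inl (.inl (.inr ⟨(γ, j), rfl⟩))))))
  have ea2 : ∀ α, map i (lp (a2 α)) = a2 α := fun α => hlp _ (by
    simp only [Set.mem_union]
    exact .inl (.inl (.inl (.inl (.inr ⟨α, rfl⟩)))))
  have ev : ∀ l, map i (lp (v l)) = v l := fun l => hlp _ (by simp)
  have er3 : ∀ γ, map i (lp (r3 γ)) = r3 γ := fun γ => hlp _ (by
    simp only [Set.mem_union]
    exact .inl (.inl (.inr ⟨γ, rfl⟩)))
  have ea3 : ∀ γ j, map i (lp (a3 γ j)) = a3 γ j := fun γ j => hlp _ (by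
    simp only [Set.mem_union]
    exact .inl (.inr ⟨(γ, j), rfl⟩))
  have eu : ∀ l, map i (lp (u l)) = u l := fun l => hlp _ (by simp)
  have ec3 : ∀ γ l, i (ls (c3 γ l)) = c3 γ l := fun γ l => hls _ (.inl ⟨(γ, l), rfl⟩)
  have ew : ∀ j γ, i (ls (w j γ)) = w j γ := fun j γ => hls _ (.inr ⟨(j, γ), rfl⟩)
  let g' : Fin 3 → MvPolynomial (Fin 3) k := fun j => map φ (lp (g j))
  let f' : MvPolynomial (Fin 3) k := map φ (lp f)
  let v' : Fin τ → MvPolynomial (Fin 3) k := fun l => map φ (lp (v l))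
  let u' : Fin μ → MvPolynomial (Fin 3) k := fun l => map φ (lp (u l))
  have h1' : idealOfVars (Fin 3) k ^ N ≤
      Ideal.span (Set.range g') ⊔ idealOfVars (Fin 3) k ^ (N + 1) := by
    rw [pow_idealOfVars_eq_span N, Ideal.span_le]
    rintro _ ⟨γ, hγ, rfl⟩
    have hγ' : γ.degree = N := hγ
    let γ' : Low (N + 1) := ⟨γ, by omega⟩
    refine (mem_sup_iff_cert g' _ _).mpr ⟨fun j => map φ (lp (a1 γ' j)), ?_⟩
    have := transfer_pow i hi φ (N + 1) (monomial γ 1 - ∑ j, lp (a1 γ' j) * lp (g j)) (by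
      simpa only [map_sub, map_sum, map_mul, map_monomial, map_one, ea1, eg] using ha1 γ' hγ')
    simpa only [map_sub, map_sum, map_mul, map_monomial, map_one] using this
  have hg' : Ideal.span (Set.range g') ≤ idealOfVars (Fin 3) k ^ (a + 1) := by
    rw [Ideal.span_le]
    rintro _ ⟨j, rfl⟩
    exact transfer_pow i hi φ (a + 1) (lp (g j)) (by rw [eg]; exact hg j)
  have hKJ : ∀ L, Ideal.span (Set.range g') ⊔ idealOfVars (Fin 3) k ^ N ≤
      Ideal.span (Set.range g') ⊔ idealOfVars (Fin 3) k ^ L := fun L =>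
    sup_le le_sup_left ((pow_le_sup_of_step _ _ N h1' L).trans
      (sup_le_sup_left (Ideal.pow_le_pow_right (by omega)) _))
  have h2' : f' ^ (r + 1) ∈ (idealOfVars (Fin 3) k *
      (Ideal.span (Set.range g') ⊔ idealOfVars (Fin 3) k ^ N)) * (idealOfVars (Fin 3) k *
      (Ideal.span (Set.range g') ⊔ idealOfVars (Fin 3) k ^ N) ⊔ Ideal.span {f'}) ^ r := by
    have := transfer_pow i hi φ ((N + 1) * (r + 1))
      (lp f ^ (r + 1) - ∑ α, lp (a2 α) * gen (fun j => lp (g j)) (lp f) r α) (by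
      simpa only [map_sub, map_sum, map_mul, map_pow, map_gen, ea2, eg, ef] using ha2)
    simp only [map_sub, map_sum, map_mul, map_pow, map_gen] at this
    have h3 := Ideal.sum_mem _ (t := Finset.univ) fun α _ => Ideal.mul_mem_left _
      (map φ (lp (a2 α))) (gen_mem g' f' r _ (le_sup_left (b := idealOfVars (Fin 3) k ^ N)) α)
    rw [← sub_add_cancel (f' ^ (r + 1)) (∑ α, map φ (lp (a2 α)) * gen g' f' r α)]
    refine Ideal.add_mem _ ?_ h3
    rw [pow_mul, pow_succ' _ r, pow_succ' _ N] at this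
    exact Ideal.mul_mono (Ideal.mul_mono_right le_sup_right) (Ideal.pow_right_mono
      (le_sup_of_le_left (Ideal.mul_mono_right le_sup_right)) r) this
  have hv' : ∀ p : MvPolynomial (Fin 3) k, ∃ (c : Fin τ → k) (r : MvPolynomial (Fin 3) k),
      p - ∑ l, c l • v' l - f' * r ∈ Ideal.span (Set.range g') ⊔ idealOfVars (Fin 3) k ^ N := by
    intro p
    induction p using MvPolynomial.induction_on' with
    | monomial γ c =>
      by_cases h : γ.degree < N
      · let γ' : Low N := ⟨γ, h⟩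
        have := transfer_pow i hi φ N (monomial γ 1 - ∑ l, C (ls (c3 γ' l)) * lp (v l) -
          lp f * lp (r3 γ') - ∑ j, lp (a3 γ' j) * lp (g j)) (by
          simpa only [map_sub, map_sum, map_mul, map_monomial, map_one, map_C, ec3, ev, ef, er3,
            ea3, eg] using ha3 γ')
        simp only [map_sub, map_sum, map_mul, map_monomial, map_one, map_C] at this
        have h5 := Ideal.mul_mem_left _ (C c) ((mem_sup_iff_cert g' _ _).mpr ⟨_, this⟩)
        refine ⟨fun l => c * φ (ls (c3 γ' l)), C c * map φ (lp (r3 γ')), ?_⟩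
        convert h5 using 1
        simp only [mul_sub, C_mul_monomial, mul_one, Finset.mul_sum, ← C_mul', map_mul, v', f']
        congr 1
        · congr 1
          exact Finset.sum_congr rfl fun l _ => by ring
        · ring
      · refine ⟨0, 0, ?_⟩
        have : (monomial γ c : MvPolynomial (Fin 3) k) = C c * monomial γ 1 := by
          simp [C_mul_monomial]
        simp only [Pi.zero_apply, zero_smul, Finset.sum_const_zero, sub_zero, mul_zero]
        rw [this]
        exact Ideal.mem_sup_right (Ideal.mul_mem_left _ _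
          ((monomial_mem_pow_idealOfVars_iff N γ one_ne_zero).mpr (by omega)))
    | add p q hp hq =>
      obtain ⟨c, r, h⟩ := hp
      obtain ⟨c', r', h'⟩ := hq
      refine ⟨c + c', r + r', ?_⟩
      convert Ideal.add_mem _ h h' using 1
      simp only [Pi.add_apply, add_smul, Finset.sum_add_distrib]
      ring
  let L' : Fin μ → MvPolynomial (Fin 3) k →ₗ[k] k := fun j => pair fun γ => φ (ls (w j γ))
  have hL' : ∀ j (p : MvPolynomial (Fin 3) A) (c : A), L j (map i p) = i c →
      L' j (map φ p) = φ c := by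
    intro j p c h
    have e1 := pair_map i (fun γ => ls (w j γ)) p
    simp only [ew] at e1
    rw [hw, h] at e1
    rw [hi e1]
    exact pair_map φ _ p
  have hL0' : ∀ j, ∀ p ∈ Ideal.span (Set.range g') ⊔ idealOfVars (Fin 3) k ^ N, L' j p = 0 := by
    intro j p hp
    obtain ⟨c, hc⟩ := (mem_sup_iff_cert g' _ _).mp hp
    have e1 : L' j _ = 0 := pair_eq_zero _ _ hc
    rw [map_sub, map_sum, Finset.sum_eq_zero, sub_zero] at e1
    · exact e1
    · intro s _
      generalize c s = q
      induction q using MvPolynomial.induction_on' with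
      | monomial γ c =>
        have e : (monomial γ c : MvPolynomial (Fin 3) k) = c • monomial γ 1 := by
          simp [smul_monomial]
        have := hL' j (monomial γ 1 * lp (g s)) 0 (by
          rw [map_zero, map_mul, eg]
          exact hL0 j _ (Ideal.mem_sup_left
            (Ideal.mul_mem_left _ _ (Ideal.subset_span ⟨s, rfl⟩))))
        rw [map_mul, map_monomial, map_one, map_zero] at this
        rw [e, smul_mul_assoc, map_smul, this, smul_zero]
      | add p q hp hq => rw [add_mul, map_add, hp, hq, add_zero]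
  have hLu' : ∀ j l, L' j (u' l) = if l = j then 1 else 0 := by
    intro j l
    have := hL' j (lp (u l)) (if l = j then 1 else 0) (by
      rw [eu, hLu]
      split_ifs <;> simp)
    rw [this]
    split_ifs <;> simp
  have := finite_quot k (Ideal.span (Set.range g')) N
  have hli : LinearIndependent k fun l => Ideal.Quotient.mkₐ k
      (Ideal.span (Set.range g') ⊔ idealOfVars (Fin 3) k ^ N) (u' l) := by
    rw [Fintype.linearIndependent_iff]
    intro c hc j
    have h5 : ∑ l, c l • u' l ∈ Ideal.span (Set.range g') ⊔ idealOfVars (Fin 3) k ^ N := by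
      rw [← Ideal.Quotient.eq_zero_iff_mem]
      change Ideal.Quotient.mkₐ k _ _ = 0
      rw [map_sum, ← hc]
      exact Finset.sum_congr rfl fun l _ => map_smul _ _ _
    have h6 := hL0' j _ h5
    simpa [hLu'] using h6
  have hle := hli.fintype_card_le_finrank
  rw [Fintype.card_fin] at hle
  have := charP g' f' _ N r a le_sup_left hKJ le_sup_right
    ((hKJ (a + 1)).trans (sup_le hg' le_rfl)) h2' v' fun p => by
      obtain ⟨c, s, hc⟩ := hv' p
      refine ⟨c, ?_⟩
      rw [← sub_add_cancel (p - ∑ l, c l • v' l) (f' * s)]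
      exact Submodule.add_mem_sup hc (Ideal.mul_mem_right _ _ (Ideal.mem_span_singleton_self _))
  rw [Fintype.card_fin, co] at this
  omega

theorem main (f : MvPolynomial (Fin 3) ℂ) (a : ℕ) (hf : f ∈ idealOfVars (Fin 3) ℂ ^ (a + 2))
    (hfin : Module.Finite ℂ (MvPowerSeries (Fin 3) ℂ ⧸
      (Ideal.span (Set.range fun i => pderiv i f)).map toS)) :
    4 * Module.finrank ℂ (MvPowerSeries (Fin 3) ℂ ⧸
      (Ideal.span (Set.range fun i => pderiv i f)).map toS) + (a + 1) ^ 3 ≤
    6 * Module.finrank ℂ (MvPowerSeries (Fin 3) ℂ ⧸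
      (Ideal.span (Set.range fun i => pderiv i f) ⊔ Ideal.span {f}).map toS) + a ^ 3 := by
  obtain ⟨n, hn⟩ := exists_X_pow_mem _ hfin
  rw [finrank_eq _ n hn, finrank_eq _ n fun i => Ideal.map_mono le_sup_left (hn i)]
  obtain ⟨r, h, hh, hmem⟩ := exists_dependence f
    ((mem_idealOfVars_iff f).mp (Ideal.pow_le_self (by omega) hf))
  refine field_mult _ f _ r a
    (fun p hp => mem_sup_of_coe_mem _ p (coe_mem_of_mem_pow _ n hn p hp) _) (fun i => ?_) ?_
  · rw [mem_pow_idealOfVars_iff'] at hf ⊢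
    intro d hd
    rw [coeff_pderiv, hf, zero_mul]
    rw [map_add, Finsupp.degree_single]
    omega
  · generalize (3 * n + 1) * (r + 1) = L
    have hu : IsUnit (Ideal.Quotient.mk (idealOfVars (Fin 3) ℂ ^ L) h) := by
      have : IsNilpotent (Ideal.Quotient.mk (idealOfVars (Fin 3) ℂ ^ L) (1 - h)) := by
        refine ⟨L, ?_⟩
        rw [← map_pow, Ideal.Quotient.eq_zero_iff_mem]
        exact Ideal.pow_mem_pow ((mem_idealOfVars_iff _).mpr (by simp [hh])) _
      simpa using this.isUnit_one_sub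
    rw [← Ideal.mem_quotient_iff_mem_sup, ← Ideal.unit_mul_mem_iff_mem _ hu, ← map_mul]
    exact Ideal.mem_map_of_mem _ (le_span_gen _ f r hmem)

end Pool.Agent.MP_75f689_ag.Mult
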