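import Pool.Agent.MP_75f689_ag.CharP

set_option autoImplicit false

namespace Pool.Agent.MP_75f689_ag

open MvPolynomial

lemma jacobson_int : IsJacobsonRing ℤ := by
  rw [isJacobsonRing_iff_prime_eq]
  intro P hP
  by_cases h : P = ⊥
  · subst h
    rw [eq_bot_iff]
    intro x hx
    rw [Ideal.mem_jacobson_bot] at hx
    have := Int.isUnit_iff.1 (hx x)
    have h2 : x * x = 0 := by
      rcases this with h | h <;> nlinarith [mul_self_nonneg x]
    simpa using h2
  · have := Ring.DimensionLEOne.maximalOfPrime h hP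
    exact Ideal.jacobson_eq_self_of_isMaximal

lemma finite_of_finite_int (k : Type) [Field k] [Module.Finite ℤ k] : Finite k := by
  have h1 : ¬ Function.Injective (algebraMap ℤ k) := by
    intro h
    have : IsField ℤ := isField_of_isIntegral_of_isField h (Field.toIsField k)
    exact Int.not_isField this
  have h2 : ∃ n : ℤ, n ≠ 0 ∧ algebraMap ℤ k n = 0 := by
    by_contra h
    push Not at h
    apply h1
    rw [injective_iff_map_eq_zero]
    intro a ha
    by_contra h0
    exact h a h0 ha
  obtain ⟨n, hn, hn0⟩ := h2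
  refine Module.finite_of_fg_torsion k fun x => ⟨⟨n, mem_nonZeroDivisors_of_ne_zero hn⟩, ?_⟩
  change n • x = 0
  rw [Algebra.smul_def, hn0, zero_mul]

lemma exists_lift {σ K : Type} [Field K] (S : Set (MvPolynomial σ K)) (hS : S.Finite)
    (T : Set K) (hT : T.Finite) :
    ∃ (A : Type) (_ : CommRing A) (i : A →+* K) (k : Type) (_ : Field k) (_ : Finite k)
      (φ : A →+* k) (lp : MvPolynomial σ K → MvPolynomial σ A) (ls : K → A),
      Function.Injective i ∧ (∀ p ∈ S, map i (lp p) = p) ∧ ∀ c ∈ T, i (ls c) = c := by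
  classical
  let U : Set K := T ∪ ⋃ p ∈ S, (p.coeffs : Set K)
  have hU : U.Finite := hT.union (hS.biUnion fun p _ => Finset.finite_toSet _)
  let A := Algebra.adjoin ℤ U
  have : Algebra.FiniteType ℤ A := Algebra.FiniteType.adjoin_of_finite hU
  obtain ⟨M, hM⟩ := Ideal.exists_maximal A
  let _ := Ideal.Quotient.field M
  have := jacobson_int
  have : Module.Finite ℤ (A ⧸ M) := finite_of_finite_type_of_isJacobsonRing ℤ (A ⧸ M)
  have hr : ∀ c ∈ U, c ∈ Set.range (A.val.toRingHom) := fun c hc =>
    ⟨⟨c, Algebra.subset_adjoin hc⟩, rfl⟩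
  have h1 : ∀ p ∈ S, ∃ p' : MvPolynomial σ A, map A.val.toRingHom p' = p := by
    intro p hp
    refine mem_range_map_iff_coeffs_subset.mpr fun c hc => hr c (Or.inr ?_)
    simp only [Set.mem_iUnion]
    exact ⟨p, hp, hc⟩
  have h2 : ∀ c ∈ T, ∃ c' : A, A.val.toRingHom c' = c := fun c hc => hr c (Or.inl hc)
  choose! lp hlp using h1
  choose! ls hls using h2
  exact ⟨A, inferInstance, A.val.toRingHom, A ⧸ M, inferInstance, finite_of_finite_int _,
    Ideal.Quotient.mk M, lp, ls, Subtype.val_injective, hlp, hls⟩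

lemma transfer_pow {σ A K k : Type} [CommRing A] [CommRing K] [CommRing k] (i : A →+* K)
    (hi : Function.Injective i) (φ : A →+* k) (n : ℕ) (p : MvPolynomial σ A)
    (hp : map i p ∈ idealOfVars σ K ^ n) : map φ p ∈ idealOfVars σ k ^ n := by
  rw [mem_pow_idealOfVars_iff'] at hp ⊢
  intro d hd
  have := hp d hd
  rw [coeff_map] at this ⊢
  rw [hi (this.trans (map_zero i).symm), map_zero]

lemma finite_quot (k : Type) [Field k] (I : Ideal (MvPolynomial (Fin 3) k)) (N : ℕ) :
    Module.Finite k (MvPolynomial (Fin 3) k ⧸ (I ⊔ idealOfVars (Fin 3) k ^ N)) := by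
  let mk := Ideal.Quotient.mkₐ k (I ⊔ idealOfVars (Fin 3) k ^ N)
  refine ⟨Submodule.fg_def.mpr ⟨(fun γ => mk (monomial γ 1)) '' {γ | γ.degree < N},
    (Finsupp.finite_of_degree_lt N).image _, ?_⟩⟩
  rw [eq_top_iff]
  rintro x -
  obtain ⟨p, rfl⟩ := Ideal.Quotient.mkₐ_surjective k _ x
  induction p using MvPolynomial.induction_on' with
  | monomial γ c =>
    have : (monomial γ c : MvPolynomial (Fin 3) k) = c • monomial γ 1 := by
      simp [smul_monomial]
    rw [this, map_smul]
    refine Submodule.smul_mem _ _ ?_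
    by_cases h : γ.degree < N
    · exact Submodule.subset_span ⟨γ, h, rfl⟩
    · have : mk (monomial γ 1) = 0 := Ideal.Quotient.eq_zero_iff_mem.mpr
        (Ideal.mem_sup_right ((monomial_mem_pow_idealOfVars_iff N γ one_ne_zero).mpr (by omega)))
      rw [this]
      exact Submodule.zero_mem _
  | add p q hp hq =>
    rw [map_add]
    exact Submodule.add_mem _ hp hq

end Pool.Agent.MP_75f689_ag
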