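import Pool.Agent.MP_75f689_ag.Spread

set_option autoImplicit false

namespace Pool.Agent.MP_75f689_ag

open MvPolynomial

lemma mem_sup_iff_cert {S ι : Type*} [CommRing S] [Fintype ι] (g : ι → S) (I : Ideal S) (p : S) :
    p ∈ Ideal.span (Set.range g) ⊔ I ↔ ∃ c : ι → S, p - ∑ i, c i * g i ∈ I := by
  rw [Submodule.mem_sup]
  constructor
  · rintro ⟨y, hy, z, hz, rfl⟩
    obtain ⟨c, rfl⟩ := Ideal.mem_span_range_iff_exists_fun.mp hy
    exact ⟨c, by simpa using hz⟩
  · rintro ⟨c, hc⟩
    exact ⟨_, Ideal.mem_span_range_iff_exists_fun.mpr ⟨c, rfl⟩, _, hc, by ring⟩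

/-- Exponents of degree less than `n`. -/
abbrev Low (n : ℕ) : Type := {γ : Fin 3 →₀ ℕ // γ.degree < n}

noncomputable instance (n : ℕ) : Fintype (Low n) := (Finsupp.finite_of_degree_lt n).fintype

/-- The linear form given by weights on the low monomials. -/
noncomputable def pair {A : Type} [CommRing A] {n : ℕ} (w : Low n → A) :
    MvPolynomial (Fin 3) A →ₗ[A] A := ∑ γ, w γ • lcoeff A γ.1

lemma pair_apply {A : Type} [CommRing A] {n : ℕ} (w : Low n → A) (p : MvPolynomial (Fin 3) A) :
    pair w p = ∑ γ, w γ * coeff γ.1 p := by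
  simp [pair, LinearMap.sum_apply]

lemma pair_map {A B : Type} [CommRing A] [CommRing B] (i : A →+* B) {n : ℕ} (w : Low n → A)
    (p : MvPolynomial (Fin 3) A) : pair (fun γ => i (w γ)) (map i p) = i (pair w p) := by
  simp [pair_apply, coeff_map]

lemma pair_eq_zero {A : Type} [CommRing A] {n : ℕ} (w : Low n → A) (p : MvPolynomial (Fin 3) A)
    (hp : p ∈ idealOfVars (Fin 3) A ^ n) : pair w p = 0 := by
  rw [mem_pow_idealOfVars_iff'] at hp
  rw [pair_apply]
  exact Finset.sum_eq_zero fun γ _ => by rw [hp _ γ.2, mul_zero]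

lemma eq_pair {K : Type} [Field K] {n : ℕ} (L : MvPolynomial (Fin 3) K →ₗ[K] K)
    (hL : ∀ p ∈ idealOfVars (Fin 3) K ^ n, L p = 0) (p : MvPolynomial (Fin 3) K) :
    pair (fun γ : Low n => L (monomial γ.1 1)) p = L p := by
  classical
  induction p using MvPolynomial.induction_on' with
  | monomial γ c =>
    have e : (monomial γ c : MvPolynomial (Fin 3) K) = c • monomial γ 1 := by
      simp [smul_monomial]
    rw [e, map_smul, map_smul]
    congr 1
    by_cases h : γ.degree < n
    · rw [pair_apply, Finset.sum_eq_single ⟨γ, h⟩]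
      · simp
      · intro b _ hb
        rw [coeff_monomial, if_neg, mul_zero]
        intro e
        exact hb (Subtype.ext e.symm)
      · simp
    · have hm : (monomial γ 1 : MvPolynomial (Fin 3) K) ∈ idealOfVars (Fin 3) K ^ n :=
        (monomial_mem_pow_idealOfVars_iff n γ one_ne_zero).mpr (by omega)
      rw [pair_eq_zero _ _ hm, hL _ hm]
  | add p q hp hq => rw [map_add, map_add, hp, hq]

lemma map_mon {A B : Type} [CommRing A] [CommRing B] (i : A →+* B) (g : Fin 3 → A)
    (α : Fin 3 → ℕ) : i (mon g α) = mon (fun j => i (g j)) α := by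
  simp [mon]

/-- The inequality over an arbitrary field. -/
theorem field_ineq {K : Type} [Field K] (g : Fin 3 → MvPolynomial (Fin 3) K)
    (f : MvPolynomial (Fin 3) K) (N a : ℕ)
    (h1 : idealOfVars (Fin 3) K ^ N ≤
      Ideal.span (Set.range g) ⊔ idealOfVars (Fin 3) K ^ (N + 1))
    (h2 : f ^ a ∈ Ideal.span (Set.range g) ^ (a + 1) ⊔ idealOfVars (Fin 3) K ^ (N * (a + 1)))
    (hμ : 0 < Module.finrank K (MvPolynomial (Fin 3) K ⧸
      (Ideal.span (Set.range g) ⊔ idealOfVars (Fin 3) K ^ N))) :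
    2 * Module.finrank K (MvPolynomial (Fin 3) K ⧸
      (Ideal.span (Set.range g) ⊔ idealOfVars (Fin 3) K ^ N)) <
    3 * Module.finrank K (MvPolynomial (Fin 3) K ⧸
      ((Ideal.span (Set.range g) ⊔ Ideal.span {f}) ⊔ idealOfVars (Fin 3) K ^ N)) := by
  classical
  -- first certificate
  have c1 : ∀ γ : Low (N + 1), ∃ c : Fin 3 → MvPolynomial (Fin 3) K, γ.1.degree = N →
      monomial γ.1 1 - ∑ i, c i * g i ∈ idealOfVars (Fin 3) K ^ (N + 1) := by
    intro γ
    by_cases h : γ.1.degree = N
    · obtain ⟨c, hc⟩ := (mem_sup_iff_cert g _ _).mp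
        (h1 ((monomial_mem_pow_idealOfVars_iff N γ.1 one_ne_zero).mpr h.ge))
      exact ⟨c, fun _ => hc⟩
    · exact ⟨0, fun h' => absurd h' h⟩
  choose a1 ha1 using c1
  -- second certificate
  let Δ := Finset.Nat.antidiagonalTuple 3 (a + 1)
  have c2 : ∃ c : Δ → MvPolynomial (Fin 3) K,
      f ^ a - ∑ α, c α * mon g α.1 ∈ idealOfVars (Fin 3) K ^ (N * (a + 1)) := by
    rw [← mem_sup_iff_cert]
    refine (sup_le_sup_right (le_trans (pow_le_span g (a + 1)) (Ideal.span_mono ?_)) _) h2
    rintro _ ⟨α, hα, rfl⟩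
    exact ⟨⟨α, Finset.Nat.mem_antidiagonalTuple.mpr hα⟩, rfl⟩
  obtain ⟨a2, ha2⟩ := c2
  -- third certificate
  set I3 := (Ideal.span (Set.range g) ⊔ Ideal.span {f}) ⊔ idealOfVars (Fin 3) K ^ N with hI3
  have := finite_quot K (Ideal.span (Set.range g) ⊔ Ideal.span {f}) N
  set τ := Module.finrank K (MvPolynomial (Fin 3) K ⧸ I3) with hτ
  let b3 := Module.finBasis K (MvPolynomial (Fin 3) K ⧸ I3)
  choose v hv using fun l => Ideal.Quotient.mkₐ_surjective K I3 (b3 l)
  have c3 : ∀ γ : Low N, ∃ (c : Fin τ → K) (r : MvPolynomial (Fin 3) K)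
      (e : Fin 3 → MvPolynomial (Fin 3) K),
      monomial γ.1 1 - ∑ l, C (c l) * v l - f * r - ∑ i, e i * g i ∈
        idealOfVars (Fin 3) K ^ N := by
    intro γ
    have h := b3.sum_repr (Ideal.Quotient.mkₐ K I3 (monomial γ.1 1))
    set c := b3.repr (Ideal.Quotient.mkₐ K I3 (monomial γ.1 1))
    have h' : monomial γ.1 1 - ∑ l, C (c l) * v l ∈ I3 := by
      rw [← Ideal.Quotient.eq_zero_iff_mem]
      change Ideal.Quotient.mkₐ K I3 _ = 0
      rw [map_sub, ← h, map_sum, sub_eq_zero]
      refine Finset.sum_congr rfl fun l _ => ?_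
      rw [← hv, C_mul', map_smul]
    have hle : I3 ≤ (Ideal.span (Set.range g) ⊔ idealOfVars (Fin 3) K ^ N) ⊔ Ideal.span {f} :=
      (sup_right_comm _ _ _).le
    obtain ⟨y, hy, z, hz, e⟩ := Submodule.mem_sup.mp (hle h')
    obtain ⟨r, rfl⟩ := Ideal.mem_span_singleton'.mp hz
    obtain ⟨e', he'⟩ := (mem_sup_iff_cert g _ _).mp hy
    refine ⟨c, r, e', ?_⟩
    rw [← e]
    convert he' using 1
    ring
  choose c3 r3 a3 ha3 using c3
  -- fourth certificate
  set I4 := Ideal.span (Set.range g) ⊔ idealOfVars (Fin 3) K ^ N with hI4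
  have := finite_quot K (Ideal.span (Set.range g)) N
  set μ := Module.finrank K (MvPolynomial (Fin 3) K ⧸ I4) with hμdef
  let b4 := Module.finBasis K (MvPolynomial (Fin 3) K ⧸ I4)
  choose u hu using fun l => Ideal.Quotient.mkₐ_surjective K I4 (b4 l)
  let L : Fin μ → MvPolynomial (Fin 3) K →ₗ[K] K := fun j =>
    b4.coord j ∘ₗ (Ideal.Quotient.mkₐ K I4).toLinearMap
  have hL0 : ∀ j, ∀ p ∈ I4, L j p = 0 := by
    intro j p hp
    have : Ideal.Quotient.mkₐ K I4 p = 0 := Ideal.Quotient.eq_zero_iff_mem.mpr hp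
    change b4.coord j (Ideal.Quotient.mkₐ K I4 p) = 0
    rw [this, map_zero]
  have hLu : ∀ j l, L j (u l) = if l = j then 1 else 0 := by
    intro j l
    change b4.coord j (Ideal.Quotient.mkₐ K I4 (u l)) = _
    rw [hu, Module.Basis.coord_apply, Module.Basis.repr_self, Finsupp.single_apply]
  let w : Fin μ → Low N → K := fun j γ => L j (monomial γ.1 1)
  have hw : ∀ j p, pair (w j) p = L j p := fun j p =>
    eq_pair (L j) (fun q hq => hL0 j q (Ideal.mem_sup_right hq)) p
  -- spreading out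
  obtain ⟨A, _, i, k, _, _, φ, lp, ls, hi, hlp, hls⟩ := exists_lift
    (Set.range g ∪ {f} ∪ Set.range (Function.uncurry a1) ∪ Set.range a2 ∪ Set.range v ∪
      Set.range r3 ∪ Set.range (Function.uncurry a3) ∪ Set.range u)
    (by simp only [Set.finite_union]
        refine ⟨⟨⟨⟨⟨⟨⟨?_, ?_⟩, ?_⟩, ?_⟩, ?_⟩, ?_⟩, ?_⟩, ?_⟩ <;>
          first | exact Set.finite_range _ | exact Set.finite_singleton _)
    (Set.range (Function.uncurry c3) ∪ Set.range (Function.uncurry w))
    ((Set.finite_range _).union (Set.finite_range _))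
  have eg : ∀ j, map i (lp (g j)) = g j := fun j => hlp _ (by simp)
  have ef : map i (lp f) = f := hlp _ (by simp)
  have ea1 : ∀ γ j, map i (lp (a1 γ j)) = a1 γ j := fun γ j => hlp _ (by
    simp only [Set.mem_union]
    exact .inl (.inl (.inl (.inl (.inl (.inr ⟨(γ, j), rfl⟩))))))
  have ea2 : ∀ α, map i (lp (a2 α)) = a2 α := fun α => hlp _ (by
    simp only [Set.mem_union]
    exact .inl (.inl (.inl (.inl (.inr ⟨α, rfl⟩)))))
  have ev : ∀ l, map i (lp (v l)) = v l := fun l => hlp _ (by simp)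
  have er3 : ∀ γ, map i (lp (r3 γ)) = r3 γ := fun γ => hlp _ (by
    simp only [Set.mem_union]
    exact .inl (.inl (.inr ⟨γ, rfl⟩)))
  have ea3 : ∀ γ j, map i (lp (a3 γ j)) = a3 γ j := fun γ j => hlp _ (by
    simp only [Set.mem_union]
    exact .inl (.inr ⟨(γ, j), rfl⟩))
  have eu : ∀ l, map i (lp (u l)) = u l := fun l => hlp _ (by simp)
  have ec3 : ∀ γ l, i (ls (c3 γ l)) = c3 γ l := fun γ l => hls _ (.inl ⟨(γ, l), rfl⟩)
  have ew : ∀ j γ, i (ls (w j γ)) = w j γ := fun j γ => hls _ (.inr ⟨(j, γ), rfl⟩)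
  let g' : Fin 3 → MvPolynomial (Fin 3) k := fun j => map φ (lp (g j))
  let f' : MvPolynomial (Fin 3) k := map φ (lp f)
  let v' : Fin τ → MvPolynomial (Fin 3) k := fun l => map φ (lp (v l))
  let u' : Fin μ → MvPolynomial (Fin 3) k := fun l => map φ (lp (u l))
  have h1' : idealOfVars (Fin 3) k ^ N ≤
      Ideal.span (Set.range g') ⊔ idealOfVars (Fin 3) k ^ (N + 1) := by
    rw [pow_idealOfVars_eq_span N, Ideal.span_le]
    rintro _ ⟨γ, hγ, rfl⟩
    have hγ' : γ.degree = N := hγ
    let γ' : Low (N + 1) := ⟨γ, by omega⟩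
    refine (mem_sup_iff_cert g' _ _).mpr ⟨fun j => map φ (lp (a1 γ' j)), ?_⟩
    have := transfer_pow i hi φ (N + 1) (monomial γ 1 - ∑ j, lp (a1 γ' j) * lp (g j)) (by
      simpa only [map_sub, map_sum, map_mul, map_monomial, map_one, ea1, eg] using ha1 γ' hγ')
    simpa only [map_sub, map_sum, map_mul, map_monomial, map_one] using this
  have h2' : f' ^ a ∈ Ideal.span (Set.range g') ^ (a + 1) ⊔
      idealOfVars (Fin 3) k ^ (N * (a + 1)) := by
    have := transfer_pow i hi φ (N * (a + 1))
      (lp f ^ a - ∑ α : Δ, lp (a2 α) * mon (fun j => lp (g j)) α.1) (by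
      simpa only [map_sub, map_sum, map_mul, map_pow, map_mon, ea2, eg, ef] using ha2)
    simp only [map_sub, map_sum, map_mul, map_pow, map_mon] at this
    have h3 : ∑ α : Δ, map φ (lp (a2 α)) * mon g' α.1 ∈ Ideal.span (Set.range g') ^ (a + 1) := by
      refine Ideal.sum_mem _ fun α _ => Ideal.mul_mem_left _ _ ?_
      have := mon_mem g' α.1
      rwa [Finset.Nat.mem_antidiagonalTuple.mp α.2] at this
    have h4 := Ideal.add_mem _ (Ideal.mem_sup_left h3) (Ideal.mem_sup_right this)
    rwa [add_sub_cancel] at h4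
  have hv' : ∀ p : MvPolynomial (Fin 3) k, ∃ (c : Fin τ → k) (r : MvPolynomial (Fin 3) k),
      p - ∑ l, c l • v' l - f' * r ∈ Ideal.span (Set.range g') ⊔ idealOfVars (Fin 3) k ^ N := by
    intro p
    induction p using MvPolynomial.induction_on' with
    | monomial γ c =>
      by_cases h : γ.degree < N
      · let γ' : Low N := ⟨γ, h⟩
        have := transfer_pow i hi φ N (monomial γ 1 - ∑ l, C (ls (c3 γ' l)) * lp (v l) -
          lp f * lp (r3 γ') - ∑ j, lp (a3 γ' j) * lp (g j)) (by
          simpa only [map_sub, map_sum, map_mul, map_monomial, map_one, map_C, ec3, ev, ef, er3,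
            ea3, eg] using ha3 γ')
        simp only [map_sub, map_sum, map_mul, map_monomial, map_one, map_C] at this
        have h5 := Ideal.mul_mem_left _ (C c) ((mem_sup_iff_cert g' _ _).mpr ⟨_, this⟩)
        refine ⟨fun l => c * φ (ls (c3 γ' l)), C c * map φ (lp (r3 γ')), ?_⟩
        convert h5 using 1
        simp only [mul_sub, C_mul_monomial, mul_one, Finset.mul_sum, ← C_mul', map_mul, v', f']
        congr 1
        · congr 1
          exact Finset.sum_congr rfl fun l _ => by ring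
        · ring
      · refine ⟨0, 0, ?_⟩
        have : (monomial γ c : MvPolynomial (Fin 3) k) = C c * monomial γ 1 := by
          simp [C_mul_monomial]
        simp only [Pi.zero_apply, zero_smul, Finset.sum_const_zero, sub_zero, mul_zero]
        rw [this]
        exact Ideal.mem_sup_right (Ideal.mul_mem_left _ _
          ((monomial_mem_pow_idealOfVars_iff N γ one_ne_zero).mpr (by omega)))
    | add p q hp hq =>
      obtain ⟨c, r, h⟩ := hp
      obtain ⟨c', r', h'⟩ := hq
      refine ⟨c + c', r + r', ?_⟩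
      convert Ideal.add_mem _ h h' using 1
      simp only [Pi.add_apply, add_smul, Finset.sum_add_distrib]
      ring
  let L' : Fin μ → MvPolynomial (Fin 3) k →ₗ[k] k := fun j => pair fun γ => φ (ls (w j γ))
  have hL' : ∀ j (p : MvPolynomial (Fin 3) A) (c : A), L j (map i p) = i c →
      L' j (map φ p) = φ c := by
    intro j p c h
    have e1 := pair_map i (fun γ => ls (w j γ)) p
    simp only [ew] at e1
    rw [hw, h] at e1
    rw [hi e1]
    exact pair_map φ _ p
  have hL0' : ∀ j, ∀ p ∈ Ideal.span (Set.range g') ⊔ idealOfVars (Fin 3) k ^ N, L' j p = 0 := by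
    intro j p hp
    obtain ⟨c, hc⟩ := (mem_sup_iff_cert g' _ _).mp hp
    have e1 : L' j _ = 0 := pair_eq_zero _ _ hc
    rw [map_sub, map_sum, Finset.sum_eq_zero, sub_zero] at e1
    · exact e1
    · intro s _
      generalize c s = q
      induction q using MvPolynomial.induction_on' with
      | monomial γ c =>
        have e : (monomial γ c : MvPolynomial (Fin 3) k) = c • monomial γ 1 := by
          simp [smul_monomial]
        have := hL' j (monomial γ 1 * lp (g s)) 0 (by
          rw [map_zero, map_mul, eg]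
          exact hL0 j _ (Ideal.mem_sup_left
            (Ideal.mul_mem_left _ _ (Ideal.subset_span ⟨s, rfl⟩))))
        rw [map_mul, map_monomial, map_one, map_zero] at this
        rw [e, smul_mul_assoc, map_smul, this, smul_zero]
      | add p q hp hq => rw [add_mul, map_add, hp, hq, add_zero]
  have hLu' : ∀ j l, L' j (u' l) = if l = j then 1 else 0 := by
    intro j l
    have := hL' j (lp (u l)) (if l = j then 1 else 0) (by
      rw [eu, hLu]
      split_ifs <;> simp)
    rw [this]
    split_ifs <;> simp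
  have := finite_quot k (Ideal.span (Set.range g')) N
  have hli : LinearIndependent k fun l => Ideal.Quotient.mkₐ k
      (Ideal.span (Set.range g') ⊔ idealOfVars (Fin 3) k ^ N) (u' l) := by
    rw [Fintype.linearIndependent_iff]
    intro c hc j
    have h5 : ∑ l, c l • u' l ∈ Ideal.span (Set.range g') ⊔ idealOfVars (Fin 3) k ^ N := by
      rw [← Ideal.Quotient.eq_zero_iff_mem]
      change Ideal.Quotient.mkₐ k _ _ = 0
      rw [map_sum, ← hc]
      exact Finset.sum_congr rfl fun l _ => map_smul _ _ _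
    have h6 := hL0' j _ h5
    simpa [hLu'] using h6
  have hle := hli.fintype_card_le_finrank
  rw [Fintype.card_fin] at hle
  have := charP_ineq g' f' N a h1' h2' v' hv' (lt_of_lt_of_le hμ hle)
  rw [Fintype.card_fin] at this
  omega

end Pool.Agent.MP_75f689_ag
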